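import Mathlib

/-!
Ranks of nodes of sets of finite sequences (written from the last entry to the first), by the
relation `Ge T α u`: the rank of the node `u` in `T` is at least `α`.
-/

set_option autoImplicit false

open Ordinal Set

namespace Pool.Agent.P8H88.HJ

/-- The rank of the node `u` in `T` is at least `α`. -/
def Ge (T : Set (List ℕ)) (α : Ordinal.{0}) (u : List ℕ) : Prop :=
  ∀ β, β < α → ∃ i, (i :: u) ∈ T ∧ Ge T β (i :: u)
termination_by α

theorem ge_iff {T : Set (List ℕ)} {α : Ordinal.{0}} {u : List ℕ} :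
    Ge T α u ↔ ∀ β, β < α → ∃ i, (i :: u) ∈ T ∧ Ge T β (i :: u) := by
  rw [Ge]

theorem ge_zero (T : Set (List ℕ)) (u : List ℕ) : Ge T 0 u := by
  rw [ge_iff]; intro β hβ; exact absurd hβ (not_lt.2 (zero_le (a := β)))

theorem Ge.mono {T : Set (List ℕ)} {α β : Ordinal.{0}} {u : List ℕ} (h : Ge T α u) (hb : β ≤ α) :
    Ge T β u := by
  rw [ge_iff] at h ⊢
  intro γ hγ
  exact h γ (hγ.trans_le hb)

theorem ge_succ_of_child {T : Set (List ℕ)} {α : Ordinal.{0}} {u : List ℕ} {i : ℕ}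
    (hi : (i :: u) ∈ T) (h : Ge T α (i :: u)) : Ge T (α + 1) u := by
  rw [ge_iff]
  intro β hβ
  exact ⟨i, hi, h.mono (Order.lt_add_one_iff.1 hβ)⟩

theorem Ge.child {T : Set (List ℕ)} {α : Ordinal.{0}} {u : List ℕ} (h : Ge T (α + 1) u) :
    ∃ i, (i :: u) ∈ T ∧ Ge T α (i :: u) := by
  rw [ge_iff] at h
  exact h α (lt_add_one α)

/-- `T` is well-founded above the node `u`. -/
def Wf (T : Set (List ℕ)) (u : List ℕ) : Prop := ∃ α : Ordinal.{0}, ¬ Ge T α u

/-- The rank of the node `u` (it is `0` when `T` is not well-founded above `u`). -/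
noncomputable def rk (T : Set (List ℕ)) (u : List ℕ) : Ordinal.{0} :=
  sInf {α | ¬ Ge T (α + 1) u}

theorem Wf.exists_max {T : Set (List ℕ)} {u : List ℕ} (h : Wf T u) :
    ∃ α : Ordinal.{0}, Ge T α u ∧ ¬ Ge T (α + 1) u := by
  classical
  obtain ⟨α, hα, hmin⟩ := WellFounded.has_min (wellFounded_lt (α := Ordinal.{0}))
    {α | ¬ Ge T α u} h
  have hlt : ∀ β, β < α → Ge T β u := fun β hβ => by
    by_contra hc
    exact hmin β hc hβ
  rcases Ordinal.zero_or_succ_or_isSuccLimit α with h0 | ⟨β, rfl⟩ | hl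
  · subst h0; exact absurd (ge_zero T u) hα
  · exact ⟨β, hlt β (Order.lt_succ β), by simpa using hα⟩
  · exfalso
    apply hα
    rw [ge_iff]
    intro β hβ
    have := hlt (β + 1) (hl.succ_lt hβ)
    exact this.child

theorem Wf.ge_iff_le_rk {T : Set (List ℕ)} {u : List ℕ} (h : Wf T u) {α : Ordinal.{0}} :
    Ge T α u ↔ α ≤ rk T u := by
  obtain ⟨γ, h1, h2⟩ := h.exists_max
  have hr : rk T u = γ := by
    apply le_antisymm
    · exact csInf_le' h2
    · apply le_csInf ⟨γ, h2⟩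
      intro β hβ
      by_contra hc
      push Not at hc
      exact hβ (h1.mono (Order.add_one_le_of_lt hc))
  rw [hr]
  constructor
  · intro h3
    by_contra hc
    push Not at hc
    exact h2 (h3.mono (Order.add_one_le_of_lt hc))
  · intro h3
    exact h1.mono h3

theorem Wf.child {T : Set (List ℕ)} {u : List ℕ} (h : Wf T u) {i : ℕ} (hi : (i :: u) ∈ T) :
    Wf T (i :: u) := by
  obtain ⟨α, hα⟩ := h
  refine ⟨α, fun hc => hα ?_⟩
  exact (ge_succ_of_child hi hc).mono (le_self_add)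

theorem Wf.rk_child_lt {T : Set (List ℕ)} {u : List ℕ} (h : Wf T u) {i : ℕ} (hi : (i :: u) ∈ T) :
    rk T (i :: u) < rk T u := by
  have h1 : Ge T (rk T (i :: u)) (i :: u) := (h.child hi).ge_iff_le_rk.2 le_rfl
  have h2 := h.ge_iff_le_rk.1 (ge_succ_of_child hi h1)
  exact (Order.add_one_le_iff.1 h2)

/-- For every ordinal below the rank there is a child of at least this rank. -/
theorem Wf.exists_child {T : Set (List ℕ)} {u : List ℕ} (h : Wf T u) {α : Ordinal.{0}}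
    (hα : α < rk T u) : ∃ i, (i :: u) ∈ T ∧ α ≤ rk T (i :: u) := by
  have h1 : Ge T (rk T u) u := h.ge_iff_le_rk.2 le_rfl
  obtain ⟨i, hi, h2⟩ := (ge_iff.1 h1) α hα
  exact ⟨i, hi, (h.child hi).ge_iff_le_rk.1 h2⟩

/-- An infinite path starting at `u`. -/
theorem Wf.no_path {T : Set (List ℕ)} {u : List ℕ} (h : Wf T u) (z : ℕ → List ℕ) (h0 : z 0 = u)
    (hs : ∀ n, z (n + 1) ∈ T ∧ ∃ i, z (n + 1) = i :: z n) : False := by
  have hw : ∀ n, Wf T (z n) := by
    intro n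
    induction n with
    | zero => rw [h0]; exact h
    | succ n ih =>
      obtain ⟨h1, i, h2⟩ := hs n
      rw [h2] at h1 ⊢
      exact ih.child h1
  have hd : ∀ n, rk T (z (n + 1)) < rk T (z n) := by
    intro n
    obtain ⟨h1, i, h2⟩ := hs n
    rw [h2] at h1 ⊢
    exact (hw n).rk_child_lt h1
  exact (RelEmbedding.natGT (fun n => rk T (z n)) hd).not_wellFounded
    (wellFounded_lt (α := Ordinal.{0}))

/-- If there is no infinite path above `u` then `T` is well-founded above `u`, and the rank is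
countable. -/
theorem exists_path_of_ge {T : Set (List ℕ)} {u : List ℕ} (h : ∀ α < ω₁, Ge T α u) :
    ∃ i, (i :: u) ∈ T ∧ ∀ α < ω₁, Ge T α (i :: u) := by
  by_contra hc
  push Not at hc
  have : ∀ i, ∃ α : Ordinal.{0}, α < ω₁ ∧ ((i :: u) ∈ T → ¬ Ge T α (i :: u)) := by
    intro i
    by_cases hi : (i :: u) ∈ T
    · obtain ⟨α, h1, h2⟩ := hc i hi
      exact ⟨α, h1, fun _ => h2⟩
    · exact ⟨0, Ordinal.omega_pos 1, fun h => absurd h hi⟩
  choose a ha hb using this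
  have hsup : (⨆ i, a i) < ω₁ := Ordinal.iSup_lt_omega_one ha
  have h1 := h ((⨆ i, a i) + 1) ((Cardinal.isSuccLimit_omega 1).succ_lt hsup)
  obtain ⟨i, hi, h2⟩ := h1.child
  exact hb i hi (h2.mono (Ordinal.le_iSup a i))

theorem wf_of_no_path {T : Set (List ℕ)} {u : List ℕ}
    (h : ¬ ∃ z : ℕ → List ℕ, z 0 = u ∧ ∀ n, z (n + 1) ∈ T ∧ ∃ i, z (n + 1) = i :: z n) :
    ∃ α < ω₁, ¬ Ge T α u := by
  by_contra hc
  push Not at hc
  apply h
  classical
  let P : List ℕ → Prop := fun v => ∀ α < ω₁, Ge T α v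
  have step : ∀ v : {v // P v}, ∃ i, (i :: v.1) ∈ T ∧ P (i :: v.1) := fun v =>
    exists_path_of_ge v.2
  choose f hf1 hf2 using step
  let s : {v // P v} → {v // P v} := fun v => ⟨f v :: v.1, hf2 v⟩
  refine ⟨fun n => (s^[n] ⟨u, hc⟩).1, rfl, fun n => ?_⟩
  have : s^[n + 1] ⟨u, hc⟩ = s (s^[n] ⟨u, hc⟩) := Function.iterate_succ_apply' s n _
  simp only [this]
  exact ⟨hf1 _, f _, rfl⟩

/-- Simulation: there is a relation between nodes which respects children. -/
def Sim (S : Set (List ℕ)) (a : List ℕ) (T : Set (List ℕ)) (u : List ℕ) : Prop :=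
  ∃ R : Set (List ℕ × List ℕ), (a, u) ∈ R ∧
    ∀ v t, (v, t) ∈ R → ∀ i, (i :: v) ∈ S → ∃ j, (j :: t) ∈ T ∧ (i :: v, j :: t) ∈ R

theorem Sim.ge {S : Set (List ℕ)} {a : List ℕ} {T : Set (List ℕ)} {u : List ℕ}
    (h : Sim S a T u) {α : Ordinal.{0}} (hα : Ge S α a) : Ge T α u := by
  obtain ⟨R, h0, hR⟩ := h
  induction α using WellFoundedLT.induction generalizing a u with
  | _ α ih =>
    rw [ge_iff] at hα ⊢
    intro β hβ
    obtain ⟨i, hi, h1⟩ := hα β hβ
    obtain ⟨j, hj, h2⟩ := hR a u h0 i hi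
    exact ⟨j, hj, ih β hβ h1 h2⟩

theorem sim_of_ge {S : Set (List ℕ)} {a : List ℕ} {T : Set (List ℕ)} {u : List ℕ}
    (hw : Wf S a) (h : ∀ α, Ge S α a → Ge T α u) : Sim S a T u := by
  refine ⟨{p | Wf S p.1 ∧ ∀ α, Ge S α p.1 → Ge T α p.2}, ⟨hw, h⟩, ?_⟩
  rintro v t ⟨h1, h2⟩ i hi
  have hw' := h1.child hi
  obtain ⟨β, hb1, hb2⟩ := hw'.exists_max
  have h3 : Ge T (β + 1) t := h2 _ (ge_succ_of_child hi hb1)
  obtain ⟨j, hj, h4⟩ := h3.child
  refine ⟨j, hj, hw', fun α hα => h4.mono ?_⟩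
  by_contra hc
  push Not at hc
  exact hb2 (hα.mono (Order.add_one_le_of_lt hc))

/-- If `S` is simulated by a well-founded tree, it is well-founded. -/
theorem Sim.wf {S : Set (List ℕ)} {a : List ℕ} {T : Set (List ℕ)} {u : List ℕ}
    (h : Sim S a T u) (hw : Wf T u) : Wf S a := by
  obtain ⟨α, hα⟩ := hw
  exact ⟨α, fun hc => hα (h.ge hc)⟩

theorem sim_iff_rk {S : Set (List ℕ)} {a : List ℕ} {T : Set (List ℕ)} {u : List ℕ}
    (hS : Wf S a) (hT : Wf T u) : Sim S a T u ↔ rk S a ≤ rk T u := by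
  constructor
  · intro h
    exact hT.ge_iff_le_rk.1 (h.ge (hS.ge_iff_le_rk.2 le_rfl))
  · intro h
    refine sim_of_ge hS fun α hα => ?_
    exact hT.ge_iff_le_rk.2 ((hS.ge_iff_le_rk.1 hα).trans h)

theorem sim_left_iff {S : Set (List ℕ)} {a : List ℕ} {T : Set (List ℕ)} {u : List ℕ}
    (hS : Wf S a) : Sim S a T u ↔ Ge T (rk S a) u := by
  constructor
  · intro h
    exact h.ge (hS.ge_iff_le_rk.2 le_rfl)
  · intro h
    refine sim_of_ge hS fun α hα => h.mono (hS.ge_iff_le_rk.1 hα)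

theorem sim_right_iff {S : Set (List ℕ)} {a : List ℕ} {T : Set (List ℕ)} {u : List ℕ}
    (hT : Wf T u) : Sim S a T u ↔ ¬ Ge S (rk T u + 1) a := by
  constructor
  · intro h hc
    have := hT.ge_iff_le_rk.1 (h.ge hc)
    exact absurd this (not_le.2 (lt_add_one _))
  · intro h
    refine sim_of_ge ⟨_, h⟩ fun α hα => ?_
    rw [hT.ge_iff_le_rk]
    by_contra hc
    push Not at hc
    exact h (hα.mono (Order.add_one_le_of_lt hc))

theorem not_ge_iff_wf {S : Set (List ℕ)} {a : List ℕ} {α : Ordinal.{0}} :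
    ¬ Ge S (α + 1) a ↔ Wf S a ∧ rk S a ≤ α := by
  constructor
  · intro h
    have hw : Wf S a := ⟨_, h⟩
    refine ⟨hw, ?_⟩
    by_contra hc
    push Not at hc
    exact h (hw.ge_iff_le_rk.2 (Order.add_one_le_of_lt hc))
  · rintro ⟨hw, h⟩ hc
    have := hw.ge_iff_le_rk.1 hc
    exact absurd (this.trans h) (not_le.2 (lt_add_one _))

theorem add_one_lt_omega1 {α : Ordinal.{0}} (h : α < ω₁) : α + 1 < ω₁ :=
  (Cardinal.isSuccLimit_omega 1).succ_lt h

theorem countable_Iio {α : Ordinal.{0}} (h : α < ω₁) : (Set.Iio α).Countable := by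
  rw [← Cardinal.le_aleph0_iff_set_countable, Cardinal.mk_Iio_ordinal, ← Cardinal.lift_aleph0.{1, 0},
    Cardinal.lift_le]
  have h1 : α.card < Cardinal.aleph 1 := by
    rw [← Cardinal.lt_ord, Cardinal.ord_aleph]
    exact h
  rw [← Cardinal.succ_aleph0] at h1
  exact Order.lt_succ_iff.1 h1

end Pool.Agent.P8H88.HJ
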