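import Mathlib
import Pool.Agent.P8H88.HJ.Rk

/-!
Trees for coanalytic sets, and the definability of ranks and simulations.
-/

set_option autoImplicit false

open Ordinal Set MeasureTheory

namespace Pool.Agent.P8H88.HJ

/-- The Baire space. -/
abbrev BS : Type := ℕ → ℕ

instance polProd {X Y : Type*} [TopologicalSpace X] [TopologicalSpace Y] [PolishSpace X]
    [PolishSpace Y] : PolishSpace (X × Y) := inferInstance

section Definability

variable {X : Type*} [TopologicalSpace X] [PolishSpace X] [MeasurableSpace X] [BorelSpace X]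

omit [TopologicalSpace X] [PolishSpace X] [BorelSpace X] in
theorem measurable_ge (S : X → Set (List ℕ)) (hS : ∀ u, MeasurableSet {x | u ∈ S x})
    {α : Ordinal.{0}} (hα : α < ω₁) (u : List ℕ) : MeasurableSet {x | Ge (S x) α u} := by
  induction α using WellFoundedLT.induction generalizing u with
  | _ α ih =>
    have : {x | Ge (S x) α u} =
        ⋂ β ∈ Set.Iio α, ⋃ i : ℕ, {x | (i :: u) ∈ S x} ∩ {x | Ge (S x) β (i :: u)} := by
      ext x
      simp only [mem_ofPred_eq, mem_iInter, mem_iUnion, mem_inter_iff, mem_Iio]
      exact ge_iff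
    rw [this]
    refine MeasurableSet.biInter (countable_Iio hα) fun β hβ => ?_
    exact MeasurableSet.iUnion fun i => (hS _).inter (ih β hβ (hβ.trans hα) _)

theorem analytic_exists {Y : Type*} [TopologicalSpace Y] [PolishSpace Y] [MeasurableSpace Y]
    [BorelSpace Y] (G : Set (X × Y)) (hG : MeasurableSet G) :
    AnalyticSet {x | ∃ y, (x, y) ∈ G} := by
  have : {x | ∃ y, (x, y) ∈ G} = Prod.fst '' G := by
    ext x
    simp
  rw [this]
  exact hG.analyticSet.image_of_continuous continuous_fst

theorem analytic_sim (S T : X → Set (List ℕ)) (hS : ∀ u, MeasurableSet {x | u ∈ S x})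
    (hT : ∀ u, MeasurableSet {x | u ∈ T x}) (a u : List ℕ) :
    AnalyticSet {x | Sim (S x) a (T x) u} := by
  classical
  have h := analytic_exists (X := X) (Y := List ℕ × List ℕ → ℕ)
    {p | p.2 (a, u) = 1 ∧ ∀ v t, p.2 (v, t) = 1 → ∀ i : ℕ, (i :: v) ∈ S p.1 →
      ∃ j : ℕ, (j :: t) ∈ T p.1 ∧ p.2 (i :: v, j :: t) = 1} ?_
  · convert h using 1
    ext x
    constructor
    · rintro ⟨R, h0, hR⟩
      refine ⟨fun p => if p ∈ R then 1 else 0, by simpa using h0, ?_⟩
      intro v t hvt i hi
      obtain ⟨j, hj, h2⟩ := hR v t (by simpa using hvt) i hi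
      exact ⟨j, hj, by simpa using h2⟩
    · rintro ⟨R, h0, hR⟩
      exact ⟨{p | R p = 1}, h0, fun v t hvt i hi => hR v t hvt i hi⟩
  · have hm : ∀ q : List ℕ × List ℕ,
        Measurable fun p : X × (List ℕ × List ℕ → ℕ) => p.2 q = 1 := by
      intro q
      apply measurableSet_setOfPred.1
      exact (((measurable_pi_apply q).comp measurable_snd) (measurableSet_singleton 1))
    have hS' : ∀ w : List ℕ, Measurable fun p : X × (List ℕ × List ℕ → ℕ) => w ∈ S p.1 :=
      fun w => measurableSet_setOfPred.1 (measurable_fst (hS w))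
    have hT' : ∀ w : List ℕ, Measurable fun p : X × (List ℕ × List ℕ → ℕ) => w ∈ T p.1 :=
      fun w => measurableSet_setOfPred.1 (measurable_fst (hT w))
    apply measurableSet_setOfPred.2
    refine (hm _).and ?_
    refine Measurable.forall fun v => Measurable.forall fun t => (hm _).imp ?_
    refine Measurable.forall fun i => (hS' _).imp ?_
    exact Measurable.exists fun j => (hT' _).and (hm _)

end Definability

/-- If `S` is closed under tails and well-founded above the root, it is well-founded above every
node, with countable ranks. -/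
theorem wf_all {S : Set (List ℕ)} (hS : ∀ u i, (i :: u) ∈ S → u ∈ S) (h : Wf S [])
    (u : List ℕ) : ∃ α < ω₁, ¬ Ge S α u := by
  apply wf_of_no_path
  rintro ⟨z, h0, hz⟩
  have hlen : ∀ n, (z n).length = u.length + n := by
    intro n
    induction n with
    | zero => rw [h0]; simp
    | succ n ih =>
      obtain ⟨_, i, hi⟩ := hz n
      rw [hi, List.length_cons, ih]; omega
  have hdrop : ∀ (k : ℕ) (v : List ℕ), v ∈ S → v.drop k ∈ S := by
    intro k
    induction k with
    | zero => intro v hv; simpa using hv
    | succ k ih =>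
      intro v hv
      cases v with
      | nil => simpa using hv
      | cons i v => simpa using ih v (hS v i hv)
  refine h.no_path (fun n => (z n).drop u.length) (by simp [h0]) fun n => ?_
  obtain ⟨h1, i, hi⟩ := hz n
  refine ⟨hdrop _ _ h1, ?_⟩
  rw [hi]
  rcases hu : u.length with _ | k
  · exact ⟨i, by simp⟩
  · have hk : k < (z n).length := by rw [hlen n]; omega
    refine ⟨(z n)[k], ?_⟩
    simp only [List.drop_succ_cons]
    exact List.drop_eq_getElem_cons hk

/-- **Trees for coanalytic sets.** -/
theorem exists_tree (P : Set (BS × BS)) (hP : AnalyticSet Pᶜ) :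
    ∃ S : BS × BS → Set (List ℕ),
      (∀ p u i, (i :: u) ∈ S p → u ∈ S p) ∧
      (∀ p q u, (∀ k < u.length, p.1 k = q.1 k) → (∀ k < u.length, p.2 k = q.2 k) →
        u ∈ S p → u ∈ S q) ∧
      (∀ p, p ∈ P ↔ Wf (S p) []) := by
  rw [AnalyticSet] at hP
  rcases hP with h | ⟨f, hf, hr⟩
  · have hu : P = Set.univ := by rw [← compl_empty_iff]; exact h
    refine ⟨fun _ => ∅, fun _ _ _ h => h, fun _ _ _ _ _ h => h, fun p => ?_⟩
    refine iff_of_true (by rw [hu]; exact Set.mem_univ p) ⟨1, fun h => ?_⟩
    obtain ⟨i, hi, _⟩ := (ge_iff.1 h) 0 zero_lt_one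
    exact hi
  · refine ⟨fun p => {u | ∃ z : BS, PiNat.res z u.length = u ∧
      (∀ k < u.length, (f z).1 k = p.1 k) ∧ (∀ k < u.length, (f z).2 k = p.2 k)}, ?_, ?_, ?_⟩
    · rintro p u i ⟨z, h1, h2, h3⟩
      simp only [List.length_cons, PiNat.res_succ, List.cons.injEq] at h1 h2 h3
      exact ⟨z, h1.2, fun k hk => h2 k (by omega), fun k hk => h3 k (by omega)⟩
    · rintro p q u h1 h2 ⟨z, h3, h4, h5⟩
      exact ⟨z, h3, fun k hk => (h4 k hk).trans (h1 k hk), fun k hk => (h5 k hk).trans (h2 k hk)⟩
    · intro p
      constructor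
      · intro hp
        have := wf_of_no_path (T := {u | ∃ z : BS, PiNat.res z u.length = u ∧
          (∀ k < u.length, (f z).1 k = p.1 k) ∧ (∀ k < u.length, (f z).2 k = p.2 k)})
          (u := []) ?_
        · obtain ⟨α, _, h⟩ := this
          exact ⟨α, h⟩
        · rintro ⟨z, h0, hz⟩
          have hlen : ∀ n, (z n).length = n := by
            intro n
            induction n with
            | zero => rw [h0]; simp
            | succ n ih =>
              obtain ⟨_, i, hi⟩ := hz n
              rw [hi, List.length_cons, ih]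
          choose hz1 i hi using hz
          have hres : ∀ n, PiNat.res i n = z n := by
            intro n
            induction n with
            | zero => simp [h0]
            | succ n ih => rw [PiNat.res_succ, ih, hi]
          have hmem : ∀ n, ∃ y : BS, (∀ k < n, y k = i k) ∧ (∀ k < n, (f y).1 k = p.1 k) ∧
              (∀ k < n, (f y).2 k = p.2 k) := by
            intro n
            rcases n with _ | n
            · exact ⟨i, by simp, by simp, by simp⟩
            · obtain ⟨y, hy1, hy2, hy3⟩ := hz1 n
              rw [hlen] at hy1 hy2 hy3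
              rw [← hres] at hy1
              refine ⟨y, fun k hk => ?_, hy2, hy3⟩
              exact (PiNat.res_eq_res.1 hy1) hk
          choose y hy1 hy2 hy3 using hmem
          have hlim : Filter.Tendsto y Filter.atTop (nhds i) := by
            rw [tendsto_pi_nhds]
            intro k
            refine tendsto_const_nhds.congr' ?_
            filter_upwards [Filter.eventually_gt_atTop k] with n hn
            exact (hy1 n k hn).symm
          have hl2 : Filter.Tendsto (fun n => f (y n)) Filter.atTop (nhds p) := by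
            have : Filter.Tendsto (fun n => ((f (y n)).1, (f (y n)).2)) Filter.atTop
                (nhds (p.1, p.2)) := by
              apply Filter.Tendsto.prodMk_nhds
              · rw [tendsto_pi_nhds]
                intro k
                refine tendsto_const_nhds.congr' ?_
                filter_upwards [Filter.eventually_gt_atTop k] with n hn
                exact (hy2 n k hn).symm
              · rw [tendsto_pi_nhds]
                intro k
                refine tendsto_const_nhds.congr' ?_
                filter_upwards [Filter.eventually_gt_atTop k] with n hn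
                exact (hy3 n k hn).symm
            simpa using this
          have heq : f i = p := tendsto_nhds_unique ((hf.tendsto i).comp hlim) hl2
          have : p ∈ Pᶜ := by rw [← hr, ← heq]; exact mem_range_self i
          exact this hp
      · intro hw
        by_contra hp
        have : p ∈ range f := by rw [hr]; exact hp
        obtain ⟨z, rfl⟩ := this
        refine hw.no_path (fun n => PiNat.res z n) (by simp) fun n => ?_
        refine ⟨⟨z, by simp, fun k _ => rfl, fun k _ => rfl⟩, z n, by simp⟩

theorem eventually_prefix (x : BS) (n : ℕ) : ∀ᶠ y in nhds x, ∀ k < n, y k = x k := by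
  induction n with
  | zero => exact Filter.Eventually.of_forall fun y k hk => absurd hk (Nat.not_lt_zero k)
  | succ n ih =>
    have h : ∀ᶠ y in nhds x, y n = x n := by
      have hc : ContinuousAt (fun y : BS => y n) x := (continuous_apply n).continuousAt
      exact hc.eventually (p := fun m => m = x n) (by simp [nhds_discrete])
    filter_upwards [ih, h] with y h1 h2 k hk
    rcases Nat.lt_succ_iff_lt_or_eq.1 hk with h3 | rfl
    · exact h1 k h3
    · exact h2

/-- Sets of points with the same tree up to the length of the node are measurable. -/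
theorem measurable_mem_tree {S : BS × BS → Set (List ℕ)}
    (hS : ∀ p q u, (∀ k < u.length, p.1 k = q.1 k) → (∀ k < u.length, p.2 k = q.2 k) →
      u ∈ S p → u ∈ S q) (u : List ℕ) : MeasurableSet {p | u ∈ S p} := by
  apply IsOpen.measurableSet
  rw [isOpen_iff_mem_nhds]
  intro p hp
  have h1 := (continuous_fst.tendsto p).eventually (eventually_prefix p.1 u.length)
  have h2 := (continuous_snd.tendsto p).eventually (eventually_prefix p.2 u.length)
  filter_upwards [h1, h2] with q h3 h4
  exact hS p q u (fun k hk => (h3 k hk).symm) (fun k hk => (h4 k hk).symm) hp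

/-- Trees for coanalytic subsets of the Baire space. -/
theorem exists_tree_one (C : Set BS) (hC : AnalyticSet Cᶜ) :
    ∃ T : BS → Set (List ℕ),
      (∀ x u i, (i :: u) ∈ T x → u ∈ T x) ∧
      (∀ x y u, (∀ k < u.length, x k = y k) → u ∈ T x → u ∈ T y) ∧
      (∀ x, x ∈ C ↔ Wf (T x) []) := by
  have h : AnalyticSet {p : BS × BS | p.1 ∈ C}ᶜ := hC.preimage continuous_fst
  obtain ⟨S, h1, h2, h3⟩ := exists_tree _ h
  refine ⟨fun x => S (x, 0), fun x u i => h1 _ u i, fun x y u hxy => h2 _ _ u hxy
    (fun _ _ => rfl), fun x => ?_⟩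
  exact h3 (x, 0)

theorem measurable_mem_tree_one {T : BS → Set (List ℕ)}
    (hT : ∀ x y u, (∀ k < u.length, x k = y k) → u ∈ T x → u ∈ T y) (u : List ℕ) :
    MeasurableSet {x | u ∈ T x} := by
  apply IsOpen.measurableSet
  rw [isOpen_iff_mem_nhds]
  intro p hp
  filter_upwards [eventually_prefix p u.length] with q h3
  exact hT p q u (fun k hk => (h3 k hk).symm) hp

section Coanalytic

variable {C : Set BS} {T : BS → Set (List ℕ)}

/-- The situation studied: a tree representation of a coanalytic set which is not Borel. -/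
structure Rep (C : Set BS) (T : BS → Set (List ℕ)) : Prop where
  tail : ∀ x u i, (i :: u) ∈ T x → u ∈ T x
  loc : ∀ x y u, (∀ k < u.length, x k = y k) → u ∈ T x → u ∈ T y
  mem : ∀ x, x ∈ C ↔ Wf (T x) []
  nb : ¬ MeasurableSet C

theorem exists_rep (C : Set BS) (hC : AnalyticSet Cᶜ) (hn : ¬ MeasurableSet C) :
    ∃ T, Rep C T := by
  obtain ⟨T, h1, h2, h3⟩ := exists_tree_one C hC
  exact ⟨T, h1, h2, h3, hn⟩

theorem Rep.meas (h : Rep C T) (u : List ℕ) : MeasurableSet {x | u ∈ T x} :=
  measurable_mem_tree_one h.loc u

theorem Rep.wf (h : Rep C T) {x : BS} (hx : x ∈ C) (u : List ℕ) : Wf (T x) u := by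
  obtain ⟨α, _, h1⟩ := wf_all (h.tail x) ((h.mem x).1 hx) u
  exact ⟨α, h1⟩

theorem Rep.rk_lt (h : Rep C T) {x : BS} (hx : x ∈ C) (u : List ℕ) : rk (T x) u < ω₁ := by
  obtain ⟨α, h0, h1⟩ := wf_all (h.tail x) ((h.mem x).1 hx) u
  by_contra hc
  push Not at hc
  exact h1 ((h.wf hx u).ge_iff_le_rk.2 (h0.le.trans hc))

/-- The ranks of a coanalytic set which is not Borel are unbounded. -/
theorem Rep.unbounded (h : Rep C T) {α : Ordinal.{0}} (hα : α < ω₁) :
    ∃ x ∈ C, Ge (T x) α [] := by
  by_contra hc
  push Not at hc
  apply h.nb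
  have : C = {x | Ge (T x) α []}ᶜ := by
    ext x
    rw [mem_compl_iff]
    exact ⟨fun hx => hc x hx, fun hx => (h.mem x).2 ⟨α, hx⟩⟩
  rw [this]
  exact (measurable_ge T h.meas hα []).compl

/-- **Boundedness.** -/
theorem Rep.bounded (h : Rep C T) (hC : AnalyticSet Cᶜ) {E : Set BS} (hE : AnalyticSet E)
    (hEC : E ⊆ C) : ∃ β < ω₁, ∀ x ∈ E, ¬ Ge (T x) β [] := by
  by_contra hc
  push Not at hc
  apply h.nb
  have hA : AnalyticSet C := by
    have : C = Prod.fst '' ({p : BS × BS | Sim (T p.1) [] (T p.2) []} ∩ {p | p.2 ∈ E}) := by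
      ext x
      simp only [mem_image, mem_inter_iff, mem_ofPred_eq, Prod.exists, exists_and_right,
        exists_eq_right]
      constructor
      · intro hx
        obtain ⟨α, h0, h1⟩ := wf_all (h.tail x) ((h.mem x).1 hx) []
        obtain ⟨y, hy, h2⟩ := hc α h0
        refine ⟨y, sim_of_ge ⟨α, h1⟩ fun γ hγ => h2.mono ?_, hy⟩
        by_contra h3
        push Not at h3
        exact h1 (hγ.mono h3.le)
      · rintro ⟨y, h1, hy⟩
        exact (h.mem x).2 (h1.wf ((h.mem y).1 (hEC hy)))
    rw [this]
    refine AnalyticSet.image_of_continuous ?_ continuous_fst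
    have h1 : AnalyticSet {p : BS × BS | Sim (T p.1) [] (T p.2) []} :=
      analytic_sim (fun p : BS × BS => T p.1) (fun p => T p.2)
        (fun u => measurable_fst (h.meas u)) (fun u => measurable_snd (h.meas u)) [] []
    have h2 : AnalyticSet {p : BS × BS | p.2 ∈ E} := hE.preimage continuous_snd
    rw [inter_eq_iInter]
    exact AnalyticSet.iInter fun b => by cases b <;> assumption
  exact hA.measurableSet_of_compl hC

end Coanalytic

end Pool.Agent.P8H88.HJ
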