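import Mathlib
import Pool.Agent.P8H88.HJ.Rk
import Pool.Agent.P8H88.HJ.Tree

/-!
Uniformization of coanalytic relations (Kondo).
-/

set_option autoImplicit false

open Ordinal Set MeasureTheory

namespace Pool.Agent.P8H88.HJ

/-- The enumeration of the nodes. -/
noncomputable def nd (n : ℕ) : List ℕ := Denumerable.ofNat (List ℕ) n

theorem nd_encode (u : List ℕ) : nd (Encodable.encode u) = u := Denumerable.ofNat_encode u

theorem nd_zero : nd 0 = [] := by
  have h : Encodable.encode ([] : List ℕ) = 0 := rfl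
  rw [← h, nd_encode]

theorem encode_nd (n : ℕ) : Encodable.encode (nd n) = n := Denumerable.encode_ofNat n

theorem encode_tail_lt (i : ℕ) (u : List ℕ) :
    Encodable.encode u < Encodable.encode (i :: u) := by
  rw [Encodable.encode_list_cons]
  exact Nat.lt_succ_of_le (Nat.right_le_pair _ _)

theorem length_le_encode (u : List ℕ) : u.length ≤ Encodable.encode u := by
  induction u with
  | nil => simp
  | cons i u ih => exact Nat.succ_le_of_lt (ih.trans_lt (encode_tail_lt i u))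

/-- Successive minimization. -/
theorem exists_min (A : Set BS) (hA : A.Nonempty) (r : BS → ℕ → Ordinal.{0}) :
    ∃ (z : BS) (ρ : ℕ → Ordinal.{0}),
      (∀ n, ∃ x ∈ A, ∀ j ≤ n, x j = z j ∧ r x j = ρ j) ∧
      (∀ n, ∀ x ∈ A, (∀ j < n, x j = z j ∧ r x j = ρ j) →
        (ρ n < r x n ∨ (ρ n = r x n ∧ z n ≤ x n))) := by
  classical
  let key : ℕ → BS → Ordinal.{0} ×ₗ ℕ := fun n x => toLex (r x n, x n)
  let am : ℕ → {B : Set BS // B.Nonempty} → BS := fun n B =>
    Function.argminOn (key n) B.1 B.2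
  have am_mem : ∀ n B, am n B ∈ B.1 := fun n B => Function.argminOn_mem _ _ _
  have am_le : ∀ n (B : {B : Set BS // B.Nonempty}), ∀ x ∈ B.1, key n (am n B) ≤ key n x :=
    fun n B x hx => not_lt.1 (Function.not_lt_argminOn (key n) B.1 hx)
  let seq : ℕ → {B : Set BS // B.Nonempty} := fun n => Nat.rec ⟨A, hA⟩
    (fun n B => ⟨{x | x ∈ B.1 ∧ key n x = key n (am n B)}, am n B, am_mem n B, rfl⟩) n
  have seq0 : seq 0 = ⟨A, hA⟩ := rfl
  have seqs : ∀ n, (seq (n + 1)).1 = {x | x ∈ (seq n).1 ∧ key n x = key n (am n (seq n))} :=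
    fun n => rfl
  have hseq : ∀ n x, x ∈ (seq n).1 ↔ x ∈ A ∧ ∀ j < n,
      x j = am j (seq j) j ∧ r x j = r (am j (seq j)) j := by
    intro n
    induction n with
    | zero => intro x; rw [seq0]; simp
    | succ n ih =>
      intro x
      rw [seqs]
      constructor
      · rintro ⟨h1, h2⟩
        refine ⟨((ih x).1 h1).1, fun j hj => ?_⟩
        rcases Nat.lt_succ_iff_lt_or_eq.1 hj with h3 | rfl
        · exact ((ih x).1 h1).2 j h3
        · have h4 : (r x j, x j) = (r (am j (seq j)) j, am j (seq j) j) := toLex.injective h2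
          rw [Prod.mk.injEq] at h4
          exact ⟨h4.2, h4.1⟩
      · rintro ⟨h1, h2⟩
        refine ⟨(ih x).2 ⟨h1, fun j hj => h2 j (by omega)⟩, ?_⟩
        obtain ⟨h3, h4⟩ := h2 n (by omega)
        show toLex (r x n, x n) = toLex _
        rw [h3, h4]
  refine ⟨fun n => am n (seq n) n, fun n => r (am n (seq n)) n, fun n => ?_, fun n x hx hj => ?_⟩
  · have h := (seq (n + 1)).2
    obtain ⟨x, hx⟩ := h
    obtain ⟨h1, h2⟩ := (hseq (n + 1) x).1 hx
    exact ⟨x, h1, fun j hj => h2 j (by omega)⟩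
  · have h1 := am_le n (seq n) x ((hseq n x).2 ⟨hx, hj⟩)
    rcases Prod.Lex.toLex_le_toLex.1 h1 with h2 | h2
    · exact Or.inl h2
    · exact Or.inr h2

/-- The comparison used in the uniformization. -/
def Prec (S : BS × BS → Set (List ℕ)) (y z' z : BS) (n : ℕ) : Prop :=
  (∀ j < n, Sim (S (y, z')) (nd j) (S (y, z)) (nd j) ∧ z' j = z j) ∧
  ((∃ i, (i :: nd n) ∈ S (y, z) ∧ Sim (S (y, z')) (nd n) (S (y, z)) (i :: nd n)) ∨
    (Sim (S (y, z')) (nd n) (S (y, z)) (nd n) ∧ z' n < z n))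

theorem AnalyticSet.union' {X : Type*} [TopologicalSpace X] [T2Space X] {s t : Set X}
    (hs : AnalyticSet s) (ht : AnalyticSet t) : AnalyticSet (s ∪ t) := by
  rw [union_eq_iUnion]
  exact AnalyticSet.iUnion fun b => by cases b <;> assumption

theorem AnalyticSet.inter' {X : Type*} [TopologicalSpace X] [T2Space X] {s t : Set X}
    (hs : AnalyticSet s) (ht : AnalyticSet t) : AnalyticSet (s ∩ t) := by
  rw [inter_eq_iInter]
  exact AnalyticSet.iInter fun b => by cases b <;> assumption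

theorem uniformize (R : Set (BS × BS)) (hR : AnalyticSet Rᶜ) :
    ∃ R' ⊆ R, AnalyticSet R'ᶜ ∧ (∀ y z, (y, z) ∈ R → ∃ z', (y, z') ∈ R') ∧
      ∀ y z z', (y, z) ∈ R' → (y, z') ∈ R' → z = z' := by
  classical
  obtain ⟨S, htail, hloc, hmem⟩ := exists_tree R hR
  have hmeas := measurable_mem_tree hloc
  have hwf : ∀ p ∈ R, ∀ u, Wf (S p) u := by
    intro p hp u
    obtain ⟨α, _, h1⟩ := wf_all (htail p) ((hmem p).1 hp) u
    exact ⟨α, h1⟩
  -- minimal elements
  have key : ∀ y, (∃ z, (y, z) ∈ R) → ∃ zs : BS, ∃ ρ : ℕ → Ordinal.{0}, (y, zs) ∈ R ∧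
      (∀ n, rk (S (y, zs)) (nd n) = ρ n) ∧
      (∀ n x, (y, x) ∈ R → (∀ j < n, x j = zs j ∧ rk (S (y, x)) (nd j) = ρ j) →
        (ρ n < rk (S (y, x)) (nd n) ∨ (ρ n = rk (S (y, x)) (nd n) ∧ zs n ≤ x n))) := by
    intro y hy
    obtain ⟨zs, ρ, h1, h2⟩ := exists_min {z | (y, z) ∈ R} hy (fun z n => rk (S (y, z)) (nd n))
    have h3 : ∀ α : Ordinal.{0}, ∀ n, ρ n = α → ¬ Ge (S (y, zs)) (ρ n + 1) (nd n) := by
      intro α
      induction α using WellFoundedLT.induction with
      | _ α ih =>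
        intro n hn hge
        obtain ⟨i, hi, h4⟩ := hge.child
        set m := Encodable.encode (i :: nd n) with hm
        have hum : nd m = i :: nd n := nd_encode _
        obtain ⟨x, hx, h5⟩ := h1 (max n m)
        have h6 : (i :: nd n) ∈ S (y, x) := by
          refine hloc (y, zs) (y, x) _ (fun _ _ => rfl) (fun k hk => ?_) hi
          refine ((h5 k ?_).1).symm
          have : (i :: nd n).length ≤ m := length_le_encode _
          exact le_max_of_le_right (hk.le.trans this)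
        have h7 := (hwf _ hx (nd n)).rk_child_lt h6
        rw [← hum] at h7
        have h8 := (h5 n (le_max_left _ _)).2
        have h9 := (h5 m (le_max_right _ _)).2
        rw [h8, h9] at h7
        refine ih (ρ m) (hn ▸ h7) m rfl ?_
        rw [hum]
        exact h4.mono (Order.add_one_le_of_lt h7)
    have h4 : ∀ n, Wf (S (y, zs)) (nd n) ∧ rk (S (y, zs)) (nd n) ≤ ρ n := fun n =>
      not_ge_iff_wf.1 (h3 _ n rfl)
    have h5 : (y, zs) ∈ R := by
      rw [hmem]
      have := (h4 0).1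
      rwa [nd_zero] at this
    refine ⟨zs, ρ, h5, fun n => ?_, h2⟩
    induction n using Nat.strong_induction_on with
    | _ n ih =>
      rcases h2 n zs h5 (fun j hj => ⟨rfl, ih j hj⟩) with h6 | h6
      · exact absurd (h4 n).2 (not_le.2 h6)
      · exact h6.1.symm
  have hsim : ∀ y z z', (y, z) ∈ R → (y, z') ∈ R → ∀ u v,
      (Sim (S (y, z')) u (S (y, z)) v ↔ rk (S (y, z')) u ≤ rk (S (y, z)) v) := fun y z z' hz hz' u v =>
    sim_iff_rk (hwf _ hz' u) (hwf _ hz v)
  have hprec : ∀ y z z' n, (y, z) ∈ R → Prec S y z' z n → (y, z') ∈ R := by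
    intro y z z' n hz h
    rw [hmem]
    rcases Nat.eq_zero_or_pos n with rfl | hn
    · rcases h.2 with ⟨i, _, h2⟩ | ⟨h2, _⟩
      · rw [← nd_zero]; exact h2.wf (hwf _ hz _)
      · rw [← nd_zero]; exact h2.wf (hwf _ hz _)
    · rw [← nd_zero]; exact (h.1 0 hn).1.wf (hwf _ hz _)
  refine ⟨{p | p ∈ R ∧ ¬ ∃ z' n, Prec S p.1 z' p.2 n}, fun p hp => hp.1, ?_, ?_, ?_⟩
  · have h1 : {p : BS × BS | p ∈ R ∧ ¬ ∃ z' n, Prec S p.1 z' p.2 n}ᶜ =
        Rᶜ ∪ Prod.fst '' (⋃ n, {q : (BS × BS) × BS | Prec S q.1.1 q.2 q.1.2 n}) := by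
      ext p
      simp only [mem_compl_iff, mem_ofPred_eq, mem_union, mem_image, mem_iUnion, Prod.exists,
        exists_and_right, exists_eq_right]
      constructor
      · intro h
        by_cases hp : p ∈ R
        · right
          by_contra hc
          exact h ⟨hp, hc⟩
        · exact Or.inl hp
      · rintro (h | h) ⟨h2, h3⟩
        · exact h h2
        · exact h3 h
    rw [h1]
    refine AnalyticSet.union' hR (AnalyticSet.image_of_continuous (AnalyticSet.iUnion fun n => ?_)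
      continuous_fst)
    have hm1 : ∀ u, MeasurableSet {q : (BS × BS) × BS | u ∈ S (q.1.1, q.1.2)} := fun u =>
      measurable_fst (hmeas u)
    have hm2 : ∀ u, MeasurableSet {q : (BS × BS) × BS | u ∈ S (q.1.1, q.2)} := fun u => by
      have : Measurable fun q : (BS × BS) × BS => (q.1.1, q.2) := by fun_prop
      exact this (hmeas u)
    have hs : ∀ u v, AnalyticSet {q : (BS × BS) × BS | Sim (S (q.1.1, q.2)) u (S (q.1.1, q.1.2)) v} :=
      fun u v => analytic_sim (fun q : (BS × BS) × BS => S (q.1.1, q.2))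
        (fun q => S (q.1.1, q.1.2)) hm2 hm1 u v
    have e : {q : (BS × BS) × BS | Prec S q.1.1 q.2 q.1.2 n} =
        (⋂ j : ℕ, ({q | ¬ j < n} ∪ ({q | Sim (S (q.1.1, q.2)) (nd j) (S (q.1.1, q.1.2)) (nd j)} ∩
          {q | q.2 j = q.1.2 j}))) ∩
        ((⋃ i : ℕ, ({q | (i :: nd n) ∈ S (q.1.1, q.1.2)} ∩
          {q | Sim (S (q.1.1, q.2)) (nd n) (S (q.1.1, q.1.2)) (i :: nd n)})) ∪
        ({q | Sim (S (q.1.1, q.2)) (nd n) (S (q.1.1, q.1.2)) (nd n)} ∩ {q | q.2 n < q.1.2 n})) := by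
      ext q
      simp only [Prec, mem_ofPred_eq, mem_inter_iff, mem_iInter, mem_union, mem_iUnion]
      constructor
      · rintro ⟨h1, h2⟩
        exact ⟨fun j => by by_cases hj : j < n <;> [exact Or.inr (h1 j hj); exact Or.inl hj], h2⟩
      · rintro ⟨h1, h2⟩
        exact ⟨fun j hj => (h1 j).resolve_left (not_not.2 hj), h2⟩
    rw [e]
    refine AnalyticSet.inter' (AnalyticSet.iInter fun j => ?_) (AnalyticSet.union' ?_ ?_)
    · refine AnalyticSet.union' (MeasurableSet.const _).analyticSet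
        (AnalyticSet.inter' (hs _ _) (MeasurableSet.analyticSet ?_))
      exact measurableSet_eq_fun (by fun_prop) (by fun_prop)
    · exact AnalyticSet.iUnion fun i => AnalyticSet.inter' (hm1 _).analyticSet (hs _ _)
    · refine AnalyticSet.inter' (hs _ _) (MeasurableSet.analyticSet ?_)
      exact measurableSet_lt (by fun_prop) (by fun_prop)
  · intro y z hz
    obtain ⟨zs, ρ, h1, h2, h3⟩ := key y ⟨z, hz⟩
    refine ⟨zs, h1, ?_⟩
    rintro ⟨z', n, hp⟩
    have hz' := hprec y zs z' n h1 hp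
    obtain ⟨hp1, hp2⟩ := hp
    simp only [hsim y zs z' h1 hz'] at hp1 hp2
    have h4 : ∀ j < n, z' j = zs j ∧ rk (S (y, z')) (nd j) = ρ j := by
      intro j
      induction j using Nat.strong_induction_on with
      | _ j ih =>
        intro hj
        refine ⟨(hp1 j hj).2, ?_⟩
        rcases h3 j z' hz' (fun k hk => ih k hk (hk.trans hj)) with h6 | h6
        · have := (hp1 j hj).1
          rw [h2 j] at this
          exact absurd this (not_le.2 h6)
        · exact h6.1.symm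
    have h5 : rk (S (y, z')) (nd n) < ρ n ∨ (rk (S (y, z')) (nd n) ≤ ρ n ∧ z' n < zs n) := by
      rcases hp2 with ⟨i, hi, h6⟩ | ⟨h6, h7⟩
      · left
        have := (hwf _ h1 (nd n)).rk_child_lt hi
        rw [h2 n] at this
        exact h6.trans_lt this
      · right
        rw [h2 n] at h6
        exact ⟨h6, h7⟩
    rcases h3 n z' hz' h4 with h6 | ⟨h6, h7⟩
    · rcases h5 with h8 | h8
      · exact absurd h8 (not_lt.2 h6.le)
      · exact absurd h8.1 (not_le.2 h6)
    · rcases h5 with h8 | h8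
      · exact absurd h8 (not_lt.2 h6.le)
      · exact absurd h8.2 (not_lt.2 h7)
  · have uniq : ∀ (y zs : BS) (ρ : ℕ → Ordinal.{0}), (y, zs) ∈ R → (∀ n, rk (S (y, zs)) (nd n) = ρ n) →
      (∀ n x, (y, x) ∈ R → (∀ j < n, x j = zs j ∧ rk (S (y, x)) (nd j) = ρ j) →
        (ρ n < rk (S (y, x)) (nd n) ∨ (ρ n = rk (S (y, x)) (nd n) ∧ zs n ≤ x n))) →
      ∀ z, ((y, z) ∈ R ∧ ¬ ∃ z' n, Prec S y z' z n) → z = zs := by
      intro y zs ρ h1 h2 h3 z hz
      have h4 : ∀ n, z n = zs n ∧ rk (S (y, z)) (nd n) = ρ n := by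
        intro n
        induction n using Nat.strong_induction_on with
        | _ n ih =>
          by_contra hc
          apply hz.2
          refine ⟨zs, n, fun j hj => ⟨?_, (ih j hj).1.symm⟩, ?_⟩
          · rw [hsim y z zs hz.1 h1, h2, (ih j hj).2]
          · rcases h3 n z hz.1 ih with h6 | ⟨h6, h7⟩
            · left
              rw [← h2 n] at h6
              obtain ⟨i, hi, h8⟩ := (hwf _ hz.1 (nd n)).exists_child h6
              exact ⟨i, hi, (hsim y z zs hz.1 h1 _ _).2 h8⟩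
            · right
              refine ⟨(hsim y z zs hz.1 h1 _ _).2 (by rw [h2 n, h6]), ?_⟩
              refine lt_of_le_of_ne h7 fun h8 => hc ⟨h8.symm, h6.symm⟩
      funext n
      exact (h4 n).1
    intro y z z' hz hz'
    obtain ⟨zs, ρ, h1, h2, h3⟩ := key y ⟨z, hz.1⟩
    rw [uniq y zs ρ h1 h2 h3 z hz, uniq y zs ρ h1 h2 h3 z' hz']

end Pool.Agent.P8H88.HJ
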