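import Mathlib
import Pool.Agent.P8H88.HJ.Rk
import Pool.Agent.P8H88.HJ.Tree
import Pool.Agent.P8H88.HJ.Unif

/-!
The countability of families of sets of numbers which are defined from members of a coanalytic
set, under the perfect set property of coanalytic sets.
-/

set_option autoImplicit false

open Ordinal Set MeasureTheory

namespace Pool.Agent.P8H88.HJ

/-- The perfect set property for coanalytic sets. -/
def PSP : Prop := ∀ A : Set BS, AnalyticSet Aᶜ → ¬ A.Countable →
  ∃ P : Set BS, P ⊆ A ∧ Perfect P ∧ P.Nonempty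

/-- The `k`-th point coded by `z`. -/
def dec (k : ℕ) (z : BS) : BS := fun n => z (Nat.pair k n)

theorem continuous_dec (k : ℕ) : Continuous (dec k) :=
  continuous_pi fun _ => continuous_apply _

theorem exists_dec (w : ℕ → BS) : ∃ z : BS, ∀ k, dec k z = w k := by
  refine ⟨fun m => w (Nat.unpair m).1 (Nat.unpair m).2, fun k => ?_⟩
  funext n
  simp [dec]

/-- Splitting a point into two points. -/
def split (z : BS) : BS × BS := (fun n => z (2 * n), fun n => z (2 * n + 1))

theorem continuous_split : Continuous split := by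
  unfold split
  fun_prop

theorem split_injective : Function.Injective split := by
  intro z w h
  simp only [split, Prod.mk.injEq] at h
  funext n
  rcases Nat.even_or_odd' n with ⟨m, rfl | rfl⟩
  · exact congrFun h.1 m
  · exact congrFun h.2 m

theorem split_surjective : Function.Surjective split := by
  rintro ⟨a, b⟩
  refine ⟨fun n => if n % 2 = 0 then a (n / 2) else b (n / 2), ?_⟩
  simp only [split, Prod.mk.injEq]
  constructor
  · funext n
    simp
  · funext n
    have h1 : (2 * n + 1) % 2 = 1 := by omega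
    have h2 : (2 * n + 1) / 2 = n := by omega
    simp [h1, h2]

theorem not_countable_cantor (h : Countable (ℕ → Bool)) : False := by
  have h1 := Cardinal.mk_le_aleph0 (α := ℕ → Bool)
  have h2 : Cardinal.mk (ℕ → Bool) = Cardinal.continuum := by
    clear h1 h
    simp
  rw [h2] at h1
  exact absurd h1 (not_le.2 Cardinal.aleph0_lt_continuum)

/-- An analytic set is a projection of a closed set. -/
theorem exists_closed (A : Set BS) (hA : AnalyticSet A) :
    ∃ G : Set (BS × BS), IsClosed G ∧ ∀ x, x ∈ A ↔ ∃ w, (x, w) ∈ G := by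
  rw [AnalyticSet] at hA
  rcases hA with h | ⟨f, hf, hr⟩
  · refine ⟨∅, isClosed_empty, fun x => ?_⟩
    simp [h]
  · refine ⟨{p | f p.2 = p.1}, isClosed_eq (hf.comp continuous_snd) continuous_fst, fun x => ?_⟩
    rw [← hr]
    rfl

theorem family_countable_nat (psp : PSP) {C : Set BS} {T : BS → Set (List ℕ)} (h : Rep C T)
    (hC : AnalyticSet Cᶜ) (W : BS → ℕ → Prop) (hW : ∀ n, AnalyticSet {x | W x n})
    (hc : ∀ β < ω₁, {A : Set ℕ | ∃ x ∈ C, ¬ Ge (T x) β [] ∧ A = {n | W x n}}.Countable) :
    {A : Set ℕ | ∃ x ∈ C, A = {n | W x n}}.Countable := by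
  classical
  by_contra hunc
  choose G hG hGW using fun n => exists_closed _ (hW n)
  let R : Set (BS × BS) := {p | dec 0 p.2 ∈ C ∧ ∀ n, (p.1 n = 1 ∧
    (dec 0 p.2, dec (n + 1) p.2) ∈ G n) ∨ (p.1 n = 0 ∧ ¬ W (dec 0 p.2) n)}
  have hRW : ∀ p ∈ R, ∀ n, p.1 n = 1 ↔ W (dec 0 p.2) n := by
    rintro p ⟨_, hp⟩ n
    rcases hp n with ⟨h1, h2⟩ | ⟨h1, h2⟩
    · exact iff_of_true h1 ((hGW n _).2 ⟨_, h2⟩)
    · exact iff_of_false (by rw [h1]; exact zero_ne_one) h2
  have hR0 : ∀ p ∈ R, ∀ n, p.1 n = 0 ∨ p.1 n = 1 := by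
    rintro p ⟨_, hp⟩ n
    rcases hp n with ⟨h1, h2⟩ | ⟨h1, h2⟩
    · exact Or.inr h1
    · exact Or.inl h1
  have hRex : ∀ x ∈ C, ∃ p ∈ R, dec 0 p.2 = x := by
    intro x hx
    have : ∀ n, ∃ w, W x n → (x, w) ∈ G n := by
      intro n
      by_cases hn : W x n
      · obtain ⟨w, hw⟩ := (hGW n x).1 hn
        exact ⟨w, fun _ => hw⟩
      · exact ⟨x, fun h => absurd h hn⟩
    choose w hw using this
    obtain ⟨z, hz⟩ := exists_dec (fun k => Nat.casesOn k x w)
    have hz0 : dec 0 z = x := hz 0
    have hzs : ∀ n, dec (n + 1) z = w n := fun n => hz (n + 1)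
    refine ⟨(fun n => if W x n then 1 else 0, z), ⟨by rw [hz0]; exact hx, fun n => ?_⟩, hz0⟩
    by_cases hn : W x n
    · left
      refine ⟨by simp [hn], ?_⟩
      rw [hz0, hzs]
      exact hw n hn
    · right
      exact ⟨by simp [hn], by rw [hz0]; exact hn⟩
  have hRa : AnalyticSet Rᶜ := by
    have hd : ∀ k, Continuous fun p : BS × BS => dec k p.2 := fun k =>
      (continuous_dec k).comp continuous_snd
    have e : Rᶜ = {p | dec 0 p.2 ∈ Cᶜ} ∪ ⋃ n, ({p | ¬ (p.1 n = 1 ∧
        (dec 0 p.2, dec (n + 1) p.2) ∈ G n)} ∩ ({p | ¬ p.1 n = 0} ∪ {p | W (dec 0 p.2) n})) := by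
      ext p
      simp only [R, mem_compl_iff, mem_ofPred_eq, mem_union, mem_iUnion, mem_inter_iff]
      constructor
      · intro h
        by_cases hp : dec 0 p.2 ∈ C
        · right
          by_contra hcc
          push Not at hcc
          refine h ⟨hp, fun n => ?_⟩
          by_cases h1 : p.1 n = 1 ∧ (dec 0 p.2, dec (n + 1) p.2) ∈ G n
          · exact Or.inl h1
          · right
            exact hcc n (fun h2 h3 => h1 ⟨h2, h3⟩)
        · exact Or.inl hp
      · rintro (h | ⟨n, h1, h2⟩) ⟨h3, h4⟩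
        · exact h h3
        · rcases h4 n with h5 | h5
          · exact h1 h5
          · rcases h2 with h2 | h2
            · exact h2 h5.1
            · exact h5.2 h2
    rw [e]
    have hm1 : ∀ n m, MeasurableSet {p : BS × BS | p.1 n = m} := fun n m =>
      measurableSet_eq_fun (by fun_prop) (by fun_prop)
    refine AnalyticSet.union' (hC.preimage (hd 0)) (AnalyticSet.iUnion fun n => ?_)
    refine AnalyticSet.inter' (MeasurableSet.analyticSet ?_) (AnalyticSet.union'
      (hm1 n 0).compl.analyticSet ((hW n).preimage (hd 0)))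
    apply MeasurableSet.compl
    refine (hm1 n 1).inter ?_
    exact ((hG n).preimage ((hd 0).prodMk (hd (n + 1)))).measurableSet
  obtain ⟨R', hR'R, hR'a, hR'ex, hR'u⟩ := uniformize R hRa
  -- the uniformization is uncountable
  have hR'unc : ¬ R'.Countable := by
    intro hcount
    apply hunc
    refine (hcount.image fun p : BS × BS => {n | p.1 n = 1}).mono ?_
    rintro A ⟨x, hx, rfl⟩
    obtain ⟨p, hp, hpx⟩ := hRex x hx
    obtain ⟨z', hz'⟩ := hR'ex p.1 p.2 hp
    refine ⟨(p.1, z'), hz', ?_⟩
    ext n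
    have := hRW p hp n
    rw [hpx] at this
    exact this
  have hD : ¬ (split ⁻¹' R').Countable := by
    intro hcount
    apply hR'unc
    have := hcount.image split
    rwa [image_preimage_eq _ split_surjective] at this
  obtain ⟨P, hPD, hP, hPne⟩ := psp (split ⁻¹' R') (by
    have := hR'a.preimage continuous_split
    exact this) hD
  have hg : ∃ g : (ℕ → Bool) → BS, range g ⊆ P ∧ Continuous g ∧ Function.Injective g := by
    let := TopologicalSpace.upgradeIsCompletelyMetrizable BS
    exact hP.exists_nat_bool_injection hPne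
  obtain ⟨g, hgP, hgc, hgi⟩ := hg
  have hgR : ∀ b, split (g b) ∈ R' := fun b => hPD (hgP (mem_range_self b))
  have hcont : Continuous fun b => dec 0 (split (g b)).2 :=
    (continuous_dec 0).comp (continuous_snd.comp (continuous_split.comp hgc))
  have hE : AnalyticSet (range fun b => dec 0 (split (g b)).2) :=
    (isCompact_range hcont).isClosed.analyticSet
  obtain ⟨β, hβ, hb⟩ := h.bounded hC hE (by
    rintro _ ⟨b, rfl⟩
    exact (hR'R (hgR b)).1)
  have h1 := hc β hβ
  have h2 : (range fun b => {n | W (dec 0 (split (g b)).2) n}).Countable := by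
    refine h1.mono ?_
    rintro _ ⟨b, rfl⟩
    exact ⟨_, (hR'R (hgR b)).1, hb _ (mem_range_self b), rfl⟩
  have hinj : Function.Injective fun b => {n | W (dec 0 (split (g b)).2) n} := by
    intro b b' hbb
    apply hgi
    apply split_injective
    have h3 : (split (g b)).1 = (split (g b')).1 := by
      funext n
      have e1 := hRW _ (hR'R (hgR b)) n
      have e2 := hRW _ (hR'R (hgR b')) n
      have e3 : W (dec 0 (split (g b)).2) n ↔ W (dec 0 (split (g b')).2) n := by
        have := congrArg (fun s => n ∈ s) hbb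
        exact this.to_iff
      rcases hR0 _ (hR'R (hgR b)) n with e4 | e4 <;> rcases hR0 _ (hR'R (hgR b')) n with e5 | e5
      · rw [e4, e5]
      · have := e1.2 (e3.2 (e2.1 e5))
        rw [e4] at this
        exact absurd this zero_ne_one
      · have := e2.2 (e3.1 (e1.1 e4))
        rw [e5] at this
        exact absurd this zero_ne_one
      · rw [e4, e5]
    have h4 : (split (g b)).2 = (split (g b')).2 := by
      apply hR'u (split (g b)).1
      · exact hgR b
      · rw [h3]; exact hgR b'
    exact Prod.ext h3 h4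
  have : Countable (ℕ → Bool) := by
    have h5 : Countable (range fun b => {n | W (dec 0 (split (g b)).2) n}) := h2.to_subtype
    exact (Set.rangeFactorization_injective.2 hinj).countable
  exact not_countable_cantor this

/-- The general form, for a countable index type. -/
theorem family_countable (psp : PSP) {C : Set BS} {T : BS → Set (List ℕ)} (h : Rep C T)
    (hC : AnalyticSet Cᶜ) {ι : Type} [Countable ι] (W : BS → ι → Prop)
    (hW : ∀ i, AnalyticSet {x | W x i})
    (hc : ∀ β < ω₁, {A : Set ι | ∃ x ∈ C, ¬ Ge (T x) β [] ∧ A = {n | W x n}}.Countable) :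
    {A : Set ι | ∃ x ∈ C, A = {n | W x n}}.Countable := by
  obtain ⟨f, hf⟩ := exists_injective_nat ι
  have key : ∀ x, {n | ∃ i, f i = n ∧ W x i} = f '' {i | W x i} := by
    intro x
    ext n
    simp only [mem_ofPred_eq, mem_image]
    exact ⟨fun ⟨i, h1, h2⟩ => ⟨i, h2, h1⟩, fun ⟨i, h1, h2⟩ => ⟨i, h2, h1⟩⟩
  have h1 := family_countable_nat psp h hC (fun x n => ∃ i, f i = n ∧ W x i) ?_ ?_
  · refine ((h1.preimage_of_injOn (f := fun A : Set ι => f '' A)
      (hf.image_injective.injOn))).mono ?_
    rintro A ⟨x, hx, rfl⟩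
    exact ⟨x, hx, (key x).symm⟩
  · intro n
    have e : {x | ∃ i, f i = n ∧ W x i} = ⋃ i, ({x | f i = n} ∩ {x | W x i}) := by
      ext x; simp
    rw [e]
    exact AnalyticSet.iUnion fun i => AnalyticSet.inter' (MeasurableSet.const _).analyticSet (hW i)
  · intro β hβ
    refine ((hc β hβ).image fun A : Set ι => f '' A).mono ?_
    rintro A ⟨x, hx, hx2, rfl⟩
    exact ⟨_, ⟨x, hx, hx2, rfl⟩, (key x).symm⟩

end Pool.Agent.P8H88.HJ
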