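import Mathlib
import Pool.Agent.P8H88.HJ.Rk
import Pool.Agent.P8H88.HJ.Tree
import Pool.Agent.P8H88.HJ.Unif
import Pool.Agent.P8H88.HJ.Fam

/-!
Conditions on the ranks of nodes, and the countability of the families which they define.
-/

set_option autoImplicit false

open Ordinal Set MeasureTheory

namespace Pool.Agent.P8H88.HJ

/-- A constraint: a lower or an upper bound for the rank of a node. -/
abbrev Con : Type 1 := Bool × List ℕ × Ordinal.{0}

/-- A coded constraint. -/
abbrev CCon : Type := Bool × List ℕ × List ℕ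

/-- The point `x` satisfies the constraint `e`. -/
def Sat (T : BS → Set (List ℕ)) (x : BS) (e : Con) : Prop :=
  (e.1 = true → Ge (T x) e.2.2 e.2.1) ∧ (e.1 = false → ¬ Ge (T x) (e.2.2 + 1) e.2.1)

/-- The constraint coded with the help of the point `c`. -/
noncomputable def dcon (T : BS → Set (List ℕ)) (c : BS) (e : CCon) : Con :=
  (e.1, e.2.1, rk (T c) e.2.2)

/-- Satisfaction of coded constraints. -/
def CSat (T : BS → Set (List ℕ)) (c x : BS) (e : CCon) : Prop :=
  (e.1 = true → Sim (T c) e.2.2 (T x) e.2.1) ∧ (e.1 = false → Sim (T x) e.2.1 (T c) e.2.2)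

/-- `s` is (the reverse of) an initial segment of `x`. -/
def Pre (s : List ℕ) (x : BS) : Prop := PiNat.res x s.length = s

theorem pre_res (x : BS) (n : ℕ) : Pre (PiNat.res x n) x := by
  simp [Pre]

theorem Pre.agree {s : List ℕ} {x y : BS} (hx : Pre s x) (hy : Pre s y) :
    ∀ k < s.length, x k = y k := by
  have h : PiNat.res x s.length = PiNat.res y s.length := hx.trans hy.symm
  exact fun k hk => PiNat.res_eq_res.1 h hk

theorem Pre.of_agree {s : List ℕ} {x y : BS} (hx : Pre s x) (h : ∀ k < s.length, x k = y k) :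
    Pre s y := by
  have : PiNat.res y s.length = PiNat.res x s.length :=
    PiNat.res_eq_res.2 (fun {k} hk => (h k hk).symm)
  exact this.trans hx

theorem Pre.suffix {s s' : List ℕ} {x : BS} (h : s <:+ s') (hx : Pre s' x) : Pre s x := by
  obtain ⟨t, rfl⟩ := h
  induction t with
  | nil => exact hx
  | cons i t ih =>
    apply ih
    simp only [Pre, List.cons_append, List.length_cons, PiNat.res_succ, List.cons.injEq] at hx
    exact hx.2

theorem suffix_of_pre {s s' : List ℕ} {x : BS} (h : Pre s x) (h' : Pre s' x)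
    (hl : s.length ≤ s'.length) : s <:+ s' := by
  have key : ∀ n m, PiNat.res x n <:+ PiNat.res x (n + m) := by
    intro n m
    induction m with
    | zero => simp
    | succ m ih =>
      rw [← add_assoc, PiNat.res_succ]
      exact ih.trans (List.suffix_cons _ _)
  obtain ⟨m, hm⟩ := Nat.exists_eq_add_of_le hl
  have := key s.length m
  rw [← hm] at this
  rw [Pre] at h h'
  rwa [h, h'] at this

theorem pre_nil (x : BS) : Pre [] x := rfl

theorem eventually_pre {s : List ℕ} {x : BS} (h : Pre s x) : ∀ᶠ y in nhds x, Pre s y := by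
  filter_upwards [eventually_prefix x s.length] with y hy
  exact h.of_agree fun k hk => (hy k hk).symm

theorem measurable_pre (s : List ℕ) : MeasurableSet {x : BS | Pre s x} := by
  apply IsOpen.measurableSet
  rw [isOpen_iff_mem_nhds]
  intro x hx
  exact eventually_pre hx

/-- The points satisfying a condition. -/
def A (T : BS → Set (List ℕ)) (s : List ℕ) (L : List Con) : Set BS :=
  {x | Pre s x ∧ ∀ e ∈ L, Sat T x e}

/-- The closure of the set of the points satisfying a condition. -/
def Cl (T : BS → Set (List ℕ)) (s : List ℕ) (L : List Con) : Set BS :=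
  {a | ∀ N, ∃ x ∈ A T s L, PiNat.res x N = PiNat.res a N}

theorem A_subset_Cl {T : BS → Set (List ℕ)} {s : List ℕ} {L : List Con} : A T s L ⊆ Cl T s L :=
  fun x hx _ => ⟨x, hx, rfl⟩

theorem isClosed_Cl (T : BS → Set (List ℕ)) (s : List ℕ) (L : List Con) :
    IsClosed (Cl T s L) := by
  rw [← isOpen_compl_iff, isOpen_iff_mem_nhds]
  intro a ha
  simp only [Cl, mem_compl_iff, mem_ofPred_eq, not_forall] at ha
  obtain ⟨N, hN⟩ := ha
  filter_upwards [eventually_prefix a N] with b hb hc
  obtain ⟨x, hx, h2⟩ := hc N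
  refine hN ⟨x, hx, h2.trans ?_⟩
  exact PiNat.res_eq_res.2 (fun {k} hk => hb k hk)

section Fam

variable {C : Set BS} {T : BS → Set (List ℕ)}

theorem sat_dcon (h : Rep C T) {c x : BS} (hc : c ∈ C) (e : CCon) :
    CSat T c x e ↔ Sat T x (dcon T c e) := by
  unfold CSat Sat dcon
  rw [sim_left_iff (h.wf hc e.2.2), sim_right_iff (h.wf hc e.2.2)]

theorem analytic_csat (h : Rep C T) (e : CCon) :
    AnalyticSet {p : BS × BS | CSat T p.1 p.2 e} := by
  rcases e with ⟨b, u, v⟩
  cases b with
  | true =>
    have : {p : BS × BS | CSat T p.1 p.2 (true, u, v)} = {p | Sim (T p.1) v (T p.2) u} := by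
      ext p; simp [CSat]
    rw [this]
    exact analytic_sim (fun p : BS × BS => T p.1) (fun p => T p.2)
      (fun u => measurable_fst (h.meas u)) (fun u => measurable_snd (h.meas u)) v u
  | false =>
    have : {p : BS × BS | CSat T p.1 p.2 (false, u, v)} = {p | Sim (T p.2) u (T p.1) v} := by
      ext p; simp [CSat]
    rw [this]
    exact analytic_sim (fun p : BS × BS => T p.2) (fun p => T p.1)
      (fun u => measurable_snd (h.meas u)) (fun u => measurable_fst (h.meas u)) u v

theorem analytic_csat_all (h : Rep C T) (L : List CCon) :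
    AnalyticSet {p : BS × BS | ∀ e ∈ L, CSat T p.1 p.2 e} := by
  have : {p : BS × BS | ∀ e ∈ L, CSat T p.1 p.2 e} =
      ⋂ e : CCon, ({p : BS × BS | e ∉ L} ∪ {p | CSat T p.1 p.2 e}) := by
    ext p
    simp only [mem_ofPred_eq, mem_iInter, mem_union]
    constructor
    · intro h1 e
      by_cases he : e ∈ L
      · exact Or.inr (h1 e he)
      · exact Or.inl he
    · intro h1 e he
      exact (h1 e).resolve_left (not_not.2 he)
  rw [this]
  exact AnalyticSet.iInter fun e => AnalyticSet.union' (MeasurableSet.const _).analyticSet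
    (analytic_csat h e)

/-- Every ordinal up to the rank of a node is the rank of some node. -/
theorem exists_node_rk {T : Set (List ℕ)} {u : List ℕ} (h : Wf T u) {ρ : Ordinal.{0}}
    (hρ : ρ ≤ rk T u) : ∃ a, rk T a = ρ := by
  obtain ⟨α, hα⟩ : ∃ α, α = rk T u := ⟨_, rfl⟩
  induction α using WellFoundedLT.induction generalizing u with
  | _ α ih =>
    rcases hρ.eq_or_lt with h1 | h1
    · exact ⟨u, h1.symm⟩
    · obtain ⟨i, hi, h2⟩ := h.exists_child h1
      exact ih (rk T (i :: u)) (hα ▸ h.rk_child_lt hi) (h.child hi) h2 rfl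

/-- Every list of constraints with countable ordinals is coded with the help of a member. -/
theorem exists_code (h : Rep C T) (L : List Con) (hL : ∀ e ∈ L, e.2.2 < ω₁) :
    ∃ c ∈ C, ∃ Lc : List CCon, Lc.map (dcon T c) = L := by
  have h1 : ∃ α < ω₁, ∀ e ∈ L, e.2.2 ≤ α := by
    induction L with
    | nil => exact ⟨0, Ordinal.omega_pos 1, by simp⟩
    | cons e L ih =>
      obtain ⟨α, h2, h3⟩ := ih fun e he => hL e (List.mem_cons_of_mem _ he)
      refine ⟨max α e.2.2, max_lt h2 (hL e List.mem_cons_self), fun e' he' => ?_⟩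
      rcases List.mem_cons.1 he' with rfl | h4
      · exact le_max_right _ _
      · exact (h3 e' h4).trans (le_max_left _ _)
  obtain ⟨α, h2, h3⟩ := h1
  obtain ⟨c, hc, h4⟩ := h.unbounded h2
  refine ⟨c, hc, ?_⟩
  have h5 : α ≤ rk (T c) [] := (h.wf hc []).ge_iff_le_rk.1 h4
  clear hL
  induction L with
  | nil => exact ⟨[], rfl⟩
  | cons e L ih =>
    obtain ⟨Lc, h6⟩ := ih fun e he => h3 e (List.mem_cons_of_mem _ he)
    obtain ⟨a, ha⟩ := exists_node_rk (h.wf hc []) ((h3 e List.mem_cons_self).trans h5)
    refine ⟨(e.1, e.2.1, a) :: Lc, ?_⟩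
    rw [List.map_cons, h6, dcon]
    simp only [ha]

theorem countable_lists {β : Ordinal.{0}} (hβ : β < ω₁) :
    {L : List Con | ∀ e ∈ L, e.2.2 < β}.Countable := by
  have : Countable (Set.Iio β) := (countable_Iio hβ).to_subtype
  have h1 : (range fun L : List (Bool × List ℕ × Set.Iio β) =>
      L.map fun e => ((e.1, e.2.1, e.2.2.1) : Con)).Countable := countable_range _
  refine h1.mono ?_
  intro L hL
  induction L with
  | nil => exact ⟨[], rfl⟩
  | cons e L ih =>
    obtain ⟨L', h2⟩ := ih fun e he => hL e (List.mem_cons_of_mem _ he)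
    refine ⟨(e.1, e.2.1, ⟨e.2.2, hL e List.mem_cons_self⟩) :: L', ?_⟩
    simp only at h2
    simp only [List.map_cons, h2]

/-- **Families indexed by conditions are countable.** -/
theorem families (psp : PSP) (h : Rep C T) (hC : AnalyticSet Cᶜ) {ι : Type} [Countable ι]
    (F : List Con → Set ι)
    (hF : ∀ Lc : List CCon, ∃ W : BS → ι → Prop, (∀ i, AnalyticSet {x | W x i}) ∧
      ∀ x ∈ C, ∀ i, W x i ↔ i ∈ F (Lc.map (dcon T x))) :
    {B : Set ι | ∃ L, (∀ e ∈ L, e.2.2 < ω₁) ∧ B = F L}.Countable := by
  choose W hW hWF using hF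
  have h1 : ∀ Lc, {B : Set ι | ∃ x ∈ C, B = {n | W Lc x n}}.Countable := by
    intro Lc
    refine family_countable psp h hC (W Lc) (hW Lc) fun β hβ => ?_
    refine ((countable_lists hβ).image F).mono ?_
    rintro B ⟨x, hx, hx2, rfl⟩
    refine ⟨Lc.map (dcon T x), ?_, ?_⟩
    · intro e he
      obtain ⟨e', _, rfl⟩ := List.mem_map.1 he
      simp only [dcon]
      have h3 : ∀ u, rk (T x) u ≤ rk (T x) [] := by
        intro u
        by_cases hu : u ∈ T x
        · induction u with
          | nil => exact le_rfl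
          | cons i u ih =>
            have hu' := h.tail x u i hu
            exact ((h.wf hx u).rk_child_lt hu).le.trans (ih hu')
        · have : rk (T x) u = 0 := by
            by_contra hne
            have hpos : 0 < rk (T x) u := pos_iff_ne_zero.2 hne
            obtain ⟨i, hi, _⟩ := (h.wf hx u).exists_child hpos
            exact hu (h.tail x u i hi)
          rw [this]
          exact zero_le (a := _)
      refine (h3 _).trans_lt ?_
      by_contra hc
      push Not at hc
      exact hx2 ((h.wf hx []).ge_iff_le_rk.2 hc)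
    · ext i
      exact (hWF Lc x hx i).symm
  refine (countable_iUnion h1).mono ?_
  rintro B ⟨L, hL, rfl⟩
  obtain ⟨c, hc, Lc, rfl⟩ := exists_code h L hL
  refine mem_iUnion.2 ⟨Lc, c, hc, ?_⟩
  ext i
  exact (hWF Lc c hc i).symm

end Fam

end Pool.Agent.P8H88.HJ
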