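import Mathlib
import Pool.Agent.P8H88.HJ.Rk
import Pool.Agent.P8H88.HJ.Tree
import Pool.Agent.P8H88.HJ.Unif
import Pool.Agent.P8H88.HJ.Fam
import Pool.Agent.P8H88.HJ.Cond

/-!
The countable set of base points outside of the coanalytic set, and the colourings.
-/

set_option autoImplicit false

open Ordinal Set MeasureTheory

namespace Pool.Agent.P8H88.HJ

/-- A countable family of sets of pairs has a common colouring. -/
theorem exists_col {W : Type} [Nonempty W] {N : Type} [Countable N] [Nonempty N]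
    (𝓕 : Set (Set (ℕ × W))) (h𝓕 : 𝓕.Countable) :
    ∃ col : ℕ → N × W, ∀ Φ ∈ 𝓕, {m | ∃ w, (m, w) ∈ Φ}.Infinite → ∀ n : N,
      ∃ m, (col m).1 = n ∧ (m, (col m).2) ∈ Φ := by
  classical
  let 𝓖 : Set (Set (ℕ × W)) := {Φ ∈ 𝓕 | {m | ∃ w, (m, w) ∈ Φ}.Infinite}
  have h𝓖 : 𝓖.Countable := h𝓕.mono fun Φ h => h.1
  rcases Set.eq_empty_or_nonempty 𝓖 with he | hne
  · refine ⟨fun _ => Classical.arbitrary _, fun Φ h1 h2 => ?_⟩
    have : Φ ∈ 𝓖 := ⟨h1, h2⟩
    rw [he] at this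
    exact absurd this (notMem_empty _)
  · have : Countable 𝓖 := h𝓖.to_subtype
    have : Nonempty 𝓖 := hne.to_subtype
    obtain ⟨f, hf⟩ := exists_surjective_nat (𝓖 × N)
    have h1 : ∀ i, ∃ᶠ m in Filter.atTop, ∃ w, (m, w) ∈ (f i).1.1 := by
      intro i
      exact Nat.frequently_atTop_iff_infinite.2 (f i).1.2.2
    obtain ⟨g, hg, h2⟩ := Filter.extraction_forall_of_frequently h1
    choose w hw using h2
    refine ⟨Function.extend g (fun i => ((f i).2, w i)) (fun _ => Classical.arbitrary _),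
      fun Φ h3 h4 n => ?_⟩
    obtain ⟨i, hi⟩ := hf (⟨Φ, h3, h4⟩, n)
    refine ⟨g i, ?_⟩
    rw [hg.injective.extend_apply]
    have h5 := hw i
    rw [hi] at h5
    refine ⟨by rw [hi], h5⟩

section

variable {C : Set BS} {T : BS → Set (List ℕ)}

/-- The tree of a condition. -/
def Tr (T : BS → Set (List ℕ)) (s : List ℕ) (L : List Con) : Set (List ℕ) :=
  {t | ∃ x ∈ A T s L, Pre t x}

theorem Cl_eq_of_Tr {s s' : List ℕ} {L L' : List Con} (h : Tr T s L = Tr T s' L') :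
    Cl T s L = Cl T s' L' := by
  have key : ∀ s L, Cl T s L = {a | ∀ N, PiNat.res a N ∈ Tr T s L} := by
    intro s L
    ext a
    simp only [Cl, Tr, mem_ofPred_eq]
    refine forall_congr' fun N => exists_congr fun x => and_congr_right fun _ => ?_
    rw [Pre, PiNat.res_length]
  rw [key, key, h]

theorem countable_Cl (psp : PSP) (h : Rep C T) (hC : AnalyticSet Cᶜ) :
    {K : Set BS | ∃ s L, (∀ e ∈ L, e.2.2 < ω₁) ∧ K = Cl T s L}.Countable := by
  have h1 : ∀ s, {B : Set (List ℕ) | ∃ L, (∀ e ∈ L, e.2.2 < ω₁) ∧ B = Tr T s L}.Countable := by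
    intro s
    refine families psp h hC (Tr T s) fun Lc => ?_
    refine ⟨fun c t => ∃ x, (Pre s x ∧ Pre t x) ∧ ∀ e ∈ Lc, CSat T c x e, fun t => ?_, ?_⟩
    · have e : {c | ∃ x, (Pre s x ∧ Pre t x) ∧ ∀ e ∈ Lc, CSat T c x e} =
          Prod.fst '' (({p : BS × BS | Pre s p.2} ∩ {p | Pre t p.2}) ∩
            {p | ∀ e ∈ Lc, CSat T p.1 p.2 e}) := by
        ext c
        simp only [mem_image, mem_inter_iff, mem_ofPred_eq, Prod.exists, exists_and_right,
          exists_eq_right]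
      rw [e]
      refine AnalyticSet.image_of_continuous (AnalyticSet.inter' (AnalyticSet.inter' ?_ ?_)
        (analytic_csat_all h Lc)) continuous_fst
      · exact (measurable_snd (measurable_pre s)).analyticSet
      · exact (measurable_snd (measurable_pre t)).analyticSet
    · intro c hc t
      simp only [Tr, A, mem_ofPred_eq]
      refine exists_congr fun x => ?_
      constructor
      · rintro ⟨⟨h2, h3⟩, h4⟩
        refine ⟨⟨h2, fun e he => ?_⟩, h3⟩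
        obtain ⟨e', he', rfl⟩ := List.mem_map.1 he
        exact (sat_dcon h hc e').1 (h4 e' he')
      · rintro ⟨⟨h2, h4⟩, h3⟩
        exact ⟨⟨h2, h3⟩, fun e he => (sat_dcon h hc e).2 (h4 _ (List.mem_map_of_mem he))⟩
  have h2 := countable_iUnion h1
  refine (h2.image fun B : Set (List ℕ) => {a : BS | ∀ N, PiNat.res a N ∈ B}).mono ?_
  rintro K ⟨s, L, hL, rfl⟩
  refine ⟨Tr T s L, mem_iUnion.2 ⟨s, L, hL, rfl⟩, ?_⟩
  ext a
  simp only [Cl, Tr, mem_ofPred_eq]
  refine forall_congr' fun N => exists_congr fun x => and_congr_right fun _ => ?_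
  rw [Pre, PiNat.res_length]

/-- **Base points.** -/
theorem exists_base (psp : PSP) (h : Rep C T) (hC : AnalyticSet Cᶜ) :
    ∃ β < ω₁, ∃ a : ℕ → BS, (∀ j, a j ∉ C) ∧ ∀ s L, (∀ e ∈ L, e.2.2 < ω₁) →
      (∃ x ∈ A T s L, Ge (T x) β []) → ∃ j, a j ∈ Cl T s L := by
  classical
  have hcount := countable_Cl psp h hC
  have hne : {K : Set BS | ∃ s L, (∀ e ∈ L, e.2.2 < ω₁) ∧ K = Cl T s L}.Nonempty :=
    ⟨_, [], [], by simp, rfl⟩
  obtain ⟨f, hf⟩ := hcount.exists_eq_range hne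
  have hcl : ∀ n, IsClosed (f n) := by
    intro n
    have : f n ∈ {K : Set BS | ∃ s L, (∀ e ∈ L, e.2.2 < ω₁) ∧ K = Cl T s L} := by
      rw [hf]; exact mem_range_self n
    obtain ⟨s, L, _, h2⟩ := this
    rw [h2]
    exact isClosed_Cl T s L
  have hbd : ∀ n, ∃ β : Ordinal.{0}, β < ω₁ ∧ (f n ⊆ C → ∀ x ∈ f n, ¬ Ge (T x) β []) := by
    intro n
    by_cases hn : f n ⊆ C
    · obtain ⟨β, hβ, h1⟩ := h.bounded hC (hcl n).analyticSet hn
      exact ⟨β, hβ, fun _ => h1⟩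
    · exact ⟨0, Ordinal.omega_pos 1, fun h => absurd h hn⟩
  choose b hb hb2 using hbd
  obtain ⟨a0, ha0⟩ : ∃ a0, a0 ∉ C := by
    by_contra hc
    push Not at hc
    apply h.nb
    rw [eq_univ_of_forall hc]
    exact MeasurableSet.univ
  have hpt : ∀ n, ∃ a, a ∉ C ∧ (¬ f n ⊆ C → a ∈ f n) := by
    intro n
    by_cases hn : f n ⊆ C
    · exact ⟨a0, ha0, fun h => absurd hn h⟩
    · obtain ⟨a, h1, h2⟩ := not_subset.1 hn
      exact ⟨a, h2, fun _ => h1⟩
  choose a ha ha2 using hpt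
  refine ⟨⨆ n, b n, Ordinal.iSup_lt_omega_one hb, a, ha, fun s L hL hx => ?_⟩
  obtain ⟨x, hx, hge⟩ := hx
  have : Cl T s L ∈ {K : Set BS | ∃ s L, (∀ e ∈ L, e.2.2 < ω₁) ∧ K = Cl T s L} :=
    ⟨s, L, hL, rfl⟩
  rw [hf] at this
  obtain ⟨n, hn⟩ := this
  refine ⟨n, ?_⟩
  rw [← hn]
  apply ha2
  intro hsub
  refine hb2 n hsub x ?_ (hge.mono (Ordinal.le_iSup b n))
  rw [hn]
  exact A_subset_Cl hx

end

end Pool.Agent.P8H88.HJ
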