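import Mathlib
import Pool.Agent.P8H88.HJ.Rk
import Pool.Agent.P8H88.HJ.Tree
import Pool.Agent.P8H88.HJ.Unif
import Pool.Agent.P8H88.HJ.Fam
import Pool.Agent.P8H88.HJ.Cond
import Pool.Agent.P8H88.HJ.Pts

/-!
One step of the construction of a point with a given image.
-/

set_option autoImplicit false

open Ordinal Set MeasureTheory

namespace Pool.Agent.P8H88.HJ

/-- The data which are read at one step: an initial segment, a node and the next base point. -/
abbrev Dat : Type := List ℕ × List ℕ × ℕ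

/-- The possible continuations of a condition. The head of the list is the requested rank of the
new node and its parent. -/
def Phi (T : BS → Set (List ℕ)) (a : ℕ → BS) (s : List ℕ) (j k : ℕ) (L : List Con) :
    Set (ℕ × Dat) :=
  {z | ∃ e L', L = e :: L' ∧ (s <:+ z.2.1 ∧ k < z.2.1.length ∧ z.1 < z.2.1.length ∧
    z.2.2.1.length ≤ z.2.1.length ∧ ∃ i, z.2.2.1 = i :: e.2.1) ∧
    ∃ x ∈ A T s L', (Pre z.2.1 x ∧ PiNat.firstDiff x (a j) = z.1 ∧ z.2.2.1 ∈ T x) ∧
      Ge (T x) e.2.2 z.2.2.1 ∧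
      ∀ N, ∃ x' ∈ A T z.2.1 ((true, z.2.2.1, e.2.2) :: L'),
        Sim (T x') (nd k) (T x) (nd k) ∧ PiNat.res x' N = PiNat.res (a z.2.2.2) N}

section

variable {C : Set BS} {T : BS → Set (List ℕ)}

theorem measurable_firstDiff (b : BS) (m : ℕ) : MeasurableSet {x : BS | PiNat.firstDiff x b = m} := by
  have e : {x : BS | PiNat.firstDiff x b = m} =
      ({x | x = b} ∩ {_x | m = 0}) ∪ ({x | x ≠ b} ∩
        ((⋂ k : ℕ, ({_x | ¬ k < m} ∪ {x | x k = b k})) ∩ {x | x m ≠ b m})) := by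
    ext x
    simp only [mem_ofPred_eq, mem_union, mem_inter_iff, mem_iInter]
    constructor
    · intro h
      by_cases hx : x = b
      · left
        refine ⟨hx, ?_⟩
        rw [← h, PiNat.firstDiff, dif_neg (not_not.2 hx)]
      · right
        refine ⟨hx, fun k => ?_, ?_⟩
        · by_cases hk : k < m
          · right
            exact PiNat.apply_eq_of_lt_firstDiff (by rw [h]; exact hk)
          · exact Or.inl hk
        · rw [← h]
          exact PiNat.apply_firstDiff_ne hx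
    · rintro (⟨hx, hm⟩ | ⟨hx, h1, h2⟩)
      · rw [PiNat.firstDiff, dif_neg (not_not.2 hx), hm]
      · apply le_antisymm
        · by_contra hc
          push Not at hc
          exact h2 (PiNat.apply_eq_of_lt_firstDiff hc)
        · by_contra hc
          push Not at hc
          exact PiNat.apply_firstDiff_ne hx ((h1 _).resolve_left (not_not.2 hc))
  rw [e]
  refine ((MeasurableSet.singleton b).inter (MeasurableSet.const _)).union
    ((MeasurableSet.singleton b).compl.inter ((MeasurableSet.iInter fun k =>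
      (MeasurableSet.const _).union ?_).inter ?_))
  · exact measurableSet_eq_fun (by fun_prop) (by fun_prop)
  · exact (measurableSet_eq_fun (f := fun x : BS => x m) (g := fun _ => b m)
      (by fun_prop) (by fun_prop)).compl

theorem mem_fst_image {X Y : Type*} (G : Set (X × Y)) (x : X) :
    x ∈ Prod.fst '' G ↔ ∃ y, (x, y) ∈ G := by
  simp

theorem analytic_and_const {X : Type*} [TopologicalSpace X] [PolishSpace X] (p : Prop)
    {s : X → Prop} (hs : AnalyticSet {x | s x}) : AnalyticSet {x | p ∧ s x} := by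
  by_cases h : p
  · simpa [h] using hs
  · have : {x | p ∧ s x} = ∅ := by ext x; simp [h]
    rw [this]
    exact analyticSet_empty

theorem countable_Phi (psp : PSP) (h : Rep C T) (hC : AnalyticSet Cᶜ) (a : ℕ → BS)
    (s : List ℕ) (j k : ℕ) :
    {B : Set (ℕ × Dat) | ∃ L, (∀ e ∈ L, e.2.2 < ω₁) ∧ B = Phi T a s j k L}.Countable := by
  refine families psp h hC (Phi T a s j k) fun Lc => ?_
  rcases Lc with _ | ⟨e, Lc⟩
  · refine ⟨fun _ _ => False, fun i => ?_, fun x hx i => ?_⟩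
    · exact (MeasurableSet.const False).analyticSet
    · rw [iff_comm, iff_false]
      rintro ⟨e, L', h1, _⟩
      simp at h1
  · refine ⟨fun c z => (s <:+ z.2.1 ∧ k < z.2.1.length ∧ z.1 < z.2.1.length ∧
      z.2.2.1.length ≤ z.2.1.length ∧ ∃ i, z.2.2.1 = i :: e.2.1) ∧
      ∃ x, (Pre s x ∧ Pre z.2.1 x ∧ PiNat.firstDiff x (a j) = z.1 ∧ z.2.2.1 ∈ T x) ∧
        (∀ e' ∈ (true, z.2.2.1, e.2.2) :: Lc, CSat T c x e') ∧
        ∀ N : ℕ, ∃ x', (Pre z.2.1 x' ∧ PiNat.res x' N = PiNat.res (a z.2.2.2) N) ∧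
          (∀ e' ∈ (true, z.2.2.1, e.2.2) :: Lc, CSat T c x' e') ∧
          Sim (T x') (nd k) (T x) (nd k), fun z => analytic_and_const _ ?_, fun c hc z => ?_⟩
    · have e1 : {c : BS | ∃ x, (Pre s x ∧ Pre z.2.1 x ∧ PiNat.firstDiff x (a j) = z.1 ∧
          z.2.2.1 ∈ T x) ∧ (∀ e' ∈ (true, z.2.2.1, e.2.2) :: Lc, CSat T c x e') ∧
          ∀ N : ℕ, ∃ x', (Pre z.2.1 x' ∧ PiNat.res x' N = PiNat.res (a z.2.2.2) N) ∧
          (∀ e' ∈ (true, z.2.2.1, e.2.2) :: Lc, CSat T c x' e') ∧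
          Sim (T x') (nd k) (T x) (nd k)} = Prod.fst '' (
          ((({p : BS × BS | p.2 ∈ {x | Pre s x}} ∩ {p | p.2 ∈ {x | Pre z.2.1 x}}) ∩
            {p | p.2 ∈ {x | PiNat.firstDiff x (a j) = z.1}}) ∩ {p | p.2 ∈ {x | z.2.2.1 ∈ T x}}) ∩
          ({p | ∀ e' ∈ (true, z.2.2.1, e.2.2) :: Lc, CSat T p.1 p.2 e'} ∩
          ⋂ N : ℕ, Prod.fst '' (
            (({q : (BS × BS) × BS | q.2 ∈ {x | Pre z.2.1 x}} ∩
              {q | PiNat.res q.2 N = PiNat.res (a z.2.2.2) N}) ∩
              {q | (q.1.1, q.2) ∈ {p : BS × BS | ∀ e' ∈ (true, z.2.2.1, e.2.2) :: Lc,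
                CSat T p.1 p.2 e'}}) ∩ {q | Sim (T q.2) (nd k) (T q.1.2) (nd k)}))) := by
        ext c
        simp only [mem_fst_image, mem_inter_iff, mem_ofPred_eq, mem_iInter, and_assoc]
      rw [e1]
      refine AnalyticSet.image_of_continuous (AnalyticSet.inter' (MeasurableSet.analyticSet ?_)
        (AnalyticSet.inter' (analytic_csat_all h _) (AnalyticSet.iInter fun N =>
          AnalyticSet.image_of_continuous (AnalyticSet.inter' (AnalyticSet.inter'
            (AnalyticSet.inter' ?_ ?_) ?_) ?_) continuous_fst))) continuous_fst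
      · exact (((measurable_snd (measurable_pre s)).inter (measurable_snd (measurable_pre _))).inter
          (measurable_snd (measurable_firstDiff _ _))).inter (measurable_snd (h.meas _))
      · exact (measurable_snd (measurable_pre _)).analyticSet
      · have e2 : {q : (BS × BS) × BS | PiNat.res q.2 N = PiNat.res (a z.2.2.2) N} =
            {q | q.2 ∈ {x | Pre (PiNat.res (a z.2.2.2) N) x}} := by
          ext q
          simp [Pre]
        rw [e2]
        exact (measurable_snd (measurable_pre _)).analyticSet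
      · exact (analytic_csat_all h _).preimage (f := fun q : (BS × BS) × BS => (q.1.1, q.2))
          (by fun_prop)
      · exact analytic_sim (fun q : (BS × BS) × BS => T q.2) (fun q => T q.1.2)
          (fun u => measurable_snd (h.meas u))
          (fun u => (measurable_snd.comp measurable_fst) (h.meas u)) _ _
    · have hs : ∀ x, (∀ e' ∈ (true, z.2.2.1, e.2.2) :: Lc, CSat T c x e') ↔
          (∀ e' ∈ (true, z.2.2.1, rk (T c) e.2.2) :: Lc.map (dcon T c), Sat T x e') := by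
        intro x
        have : ((true, z.2.2.1, rk (T c) e.2.2) : Con) = dcon T c (true, z.2.2.1, e.2.2) := rfl
        rw [this, ← List.map_cons]
        constructor
        · intro h1 e' he'
          obtain ⟨e'', he'', rfl⟩ := List.mem_map.1 he'
          exact (sat_dcon h hc e'').1 (h1 e'' he'')
        · intro h1 e' he'
          exact (sat_dcon h hc e').2 (h1 _ (List.mem_map_of_mem he'))
      simp only [hs]
      constructor
      · rintro ⟨h1, x, ⟨h2, h3, h4, h5⟩, h6, h7⟩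
        refine ⟨dcon T c e, Lc.map (dcon T c), rfl, h1, x, ⟨h2, fun e' he' =>
          h6 e' (List.mem_cons_of_mem _ he')⟩, ⟨h3, h4, h5⟩, ?_, ?_⟩
        · exact (h6 _ List.mem_cons_self).1 rfl
        · intro N
          obtain ⟨x', ⟨h8, h9⟩, h10, h11⟩ := h7 N
          exact ⟨x', ⟨h8, h10⟩, h11, h9⟩
      · rintro ⟨e', L', h0, h1, x, ⟨h2, h3⟩, ⟨h4, h5, h6⟩, h7, h8⟩
        rw [List.map_cons, List.cons.injEq] at h0
        obtain ⟨rfl, rfl⟩ := h0
        refine ⟨h1, x, ⟨h2, h4, h5, h6⟩, ?_, ?_⟩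
        · intro e' he'
          rcases List.mem_cons.1 he' with rfl | h9
          · exact ⟨fun _ => h7, fun hf => by simp at hf⟩
          · exact h3 e' h9
        · intro N
          obtain ⟨x', ⟨h9, h10⟩, h11, h12⟩ := h8 N
          exact ⟨x', ⟨h9, h12⟩, h10, h11⟩

/-- The colourings. -/
theorem exists_cols (psp : PSP) (h : Rep C T) (hC : AnalyticSet Cᶜ) (a : ℕ → BS) :
    ∃ col : ℕ → ℕ → (ℕ × ℕ) × Dat, ∀ s j k L, (∀ e ∈ L, e.2.2 < ω₁) →
      {m | ∃ w, (m, w) ∈ Phi T a s j k L}.Infinite → ∀ n : ℕ × ℕ,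
        ∃ m, (col j m).1 = n ∧ (m, (col j m).2) ∈ Phi T a s j k L := by
  have h1 : ∀ j, ∃ col : ℕ → (ℕ × ℕ) × Dat, ∀ s k L, (∀ e ∈ L, e.2.2 < ω₁) →
      {m | ∃ w, (m, w) ∈ Phi T a s j k L}.Infinite → ∀ n : ℕ × ℕ,
        ∃ m, (col m).1 = n ∧ (m, (col m).2) ∈ Phi T a s j k L := by
    intro j
    have h2 : (⋃ p : List ℕ × ℕ, {B : Set (ℕ × Dat) | ∃ L, (∀ e ∈ L, e.2.2 < ω₁) ∧
        B = Phi T a p.1 j p.2 L}).Countable :=
      countable_iUnion fun p => countable_Phi psp h hC a p.1 j p.2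
    obtain ⟨col, h3⟩ := exists_col (N := ℕ × ℕ) _ h2
    refine ⟨col, fun s k L hL hinf n => h3 _ ?_ hinf n⟩
    exact mem_iUnion.2 ⟨(s, k), L, hL, rfl⟩
  choose col hcol using h1
  exact ⟨col, fun s j k L hL hinf n => hcol j s k L hL hinf n⟩

theorem res_length_le {s : List ℕ} {x : BS} {N : ℕ} (hs : Pre s x) (hN : s.length ≤ N) :
    s <:+ PiNat.res x N :=
  suffix_of_pre hs (pre_res x N) (by rw [PiNat.res_length]; exact hN)

/-- **One step of the construction.** -/
theorem step (h : Rep C T) {β : Ordinal.{0}} {a : ℕ → BS} (ha : ∀ j, a j ∉ C)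
    (hbase : ∀ s L, (∀ e ∈ L, e.2.2 < ω₁) → (∃ x ∈ A T s L, Ge (T x) β []) →
      ∃ j, a j ∈ Cl T s L)
    {col : ℕ → ℕ → (ℕ × ℕ) × Dat}
    (hcol : ∀ s j k L, (∀ e ∈ L, e.2.2 < ω₁) →
      {m | ∃ w, (m, w) ∈ Phi T a s j k L}.Infinite → ∀ n : ℕ × ℕ,
        ∃ m, (col j m).1 = n ∧ (m, (col j m).2) ∈ Phi T a s j k L)
    {s : List ℕ} {L : List Con} {j : ℕ} (k : ℕ) (n : ℕ × ℕ) (hL : ∀ e ∈ L, e.2.2 < ω₁)
    (hj : a j ∈ Cl T s L) {σ ρ : Ordinal.{0}} (hσ : (false, [], σ) ∈ L) (hρ : (true, [], ρ) ∈ L)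
    (hβ : β ≤ ρ) {τ₀ : List ℕ} {ρ' : Ordinal.{0}} (hρ' : ρ' < ω₁)
    (hext : ∀ x ∈ A T s L, ∃ i, (i :: τ₀) ∈ T x ∧ Ge (T x) ρ' (i :: τ₀)) :
    ∃ (m : ℕ) (s' τ : List ℕ) (j' : ℕ) (φ : Ordinal.{0}) (x : BS),
      col j m = (n, s', τ, j') ∧ s <:+ s' ∧ k < s'.length ∧ m < s'.length ∧
      τ.length ≤ s'.length ∧ (∃ i, τ = i :: τ₀) ∧ φ < ω₁ ∧
      x ∈ C ∧ x ∈ A T s L ∧ Pre s' x ∧ PiNat.firstDiff x (a j) = m ∧ τ ∈ T x ∧
      φ = rk (T x) (nd k) ∧
      a j' ∈ Cl T s' ((true, τ, ρ') :: (false, nd k, φ) :: L) := by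
  have hAC : ∀ x ∈ A T s L, x ∈ C := fun x hx =>
    (h.mem x).2 ⟨_, (hx.2 _ hσ).2 rfl⟩
  -- the domain is infinite
  have hinf : {m | ∃ w, (m, w) ∈ Phi T a s j k ((true, τ₀, ρ') :: L)}.Infinite := by
    rw [Set.infinite_iff_exists_gt]
    intro M
    obtain ⟨x, hx, hres⟩ := hj (M + 1)
    have hxC := hAC x hx
    have hne : x ≠ a j := fun he => ha j (he ▸ hxC)
    have hlt : M < PiNat.firstDiff x (a j) := by
      by_contra hc
      push Not at hc
      exact PiNat.apply_firstDiff_ne hne (PiNat.res_eq_res.1 hres (by omega))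
    obtain ⟨i, hi, hge⟩ := hext x hx
    set m := PiNat.firstDiff x (a j) with hm
    set N := max (max s.length (k + 1)) (max (m + 1) (i :: τ₀).length) with hN
    set s' := PiNat.res x N with hs'
    have hlen : s'.length = N := PiNat.res_length _ _
    set φ := rk (T x) (nd k) with hφ
    have hA' : x ∈ A T s' ((true, i :: τ₀, ρ') :: (false, nd k, φ) :: L) := by
      refine ⟨pre_res x N, fun e he => ?_⟩
      rcases List.mem_cons.1 he with rfl | he
      · exact ⟨fun _ => hge, fun hf => by simp at hf⟩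
      · rcases List.mem_cons.1 he with rfl | he
        · refine ⟨fun hf => by simp at hf, fun _ => ?_⟩
          exact not_ge_iff_wf.2 ⟨h.wf hxC _, le_rfl⟩
        · exact hx.2 e he
    have hord : ∀ e ∈ ((true, i :: τ₀, ρ') :: (false, nd k, φ) :: L : List Con), e.2.2 < ω₁ := by
      intro e he
      rcases List.mem_cons.1 he with rfl | he
      · exact hρ'
      · rcases List.mem_cons.1 he with rfl | he
        · exact h.rk_lt hxC _
        · exact hL e he
    obtain ⟨j', hj'⟩ := hbase s' _ hord ⟨x, hA', ((hx.2 _ hρ).1 rfl).mono hβ⟩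
    refine ⟨m, ⟨(s', i :: τ₀, j'), (true, τ₀, ρ'), L, rfl, ⟨?_, ?_, ?_, ?_, i, rfl⟩, x, hx,
      ⟨pre_res x N, rfl, hi⟩, hge, fun N' => ?_⟩, hlt⟩
    · exact res_length_le hx.1 (by omega)
    · show k < s'.length
      omega
    · show m < s'.length
      omega
    · show (i :: τ₀).length ≤ s'.length
      omega
    · obtain ⟨x', hx', h3⟩ := hj' N'
      refine ⟨x', ⟨hx'.1, fun e he => ?_⟩, ?_, h3⟩
      · rcases List.mem_cons.1 he with rfl | he
        · exact hx'.2 _ List.mem_cons_self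
        · exact hx'.2 _ (List.mem_cons_of_mem _ (List.mem_cons_of_mem _ he))
      · have := (hx'.2 (false, nd k, φ) (List.mem_cons_of_mem _ List.mem_cons_self)).2 rfl
        exact (sim_right_iff (h.wf hxC _)).2 this
  obtain ⟨m, hm1, hm2⟩ := hcol s j k _ (by
    intro e he
    rcases List.mem_cons.1 he with rfl | he
    · exact hρ'
    · exact hL e he) hinf n
  obtain ⟨e, L', h0, ⟨h1, h2, h3, h4, h5⟩, x, hx, ⟨h6, h7, h8⟩, h9, h10⟩ := hm2
  rw [List.cons.injEq] at h0
  obtain ⟨rfl, rfl⟩ := h0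
  have hxC := hAC x hx
  refine ⟨m, (col j m).2.1, (col j m).2.2.1, (col j m).2.2.2, rk (T x) (nd k), x, ?_, h1, h2, h3,
    h4, h5, h.rk_lt hxC _, hxC, hx, h6, h7, h8, rfl, ?_⟩
  · rw [← hm1]
  · intro N
    obtain ⟨x', ⟨hx'1, hx'2⟩, h11, h12⟩ := h10 N
    refine ⟨x', ⟨hx'1, fun e he => ?_⟩, h12⟩
    rcases List.mem_cons.1 he with rfl | he
    · exact hx'2 _ List.mem_cons_self
    · rcases List.mem_cons.1 he with rfl | he
      · refine ⟨fun hf => by simp at hf, fun _ => ?_⟩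
        exact (sim_right_iff (h.wf hxC _)).1 h11
      · exact hx'2 e (List.mem_cons_of_mem _ he)

end

end Pool.Agent.P8H88.HJ
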