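import Mathlib
import Pool.Agent.P8H88.HJ.Rk
import Pool.Agent.P8H88.HJ.Tree
import Pool.Agent.P8H88.HJ.Unif
import Pool.Agent.P8H88.HJ.Fam
import Pool.Agent.P8H88.HJ.Cond
import Pool.Agent.P8H88.HJ.Pts
import Pool.Agent.P8H88.HJ.Step

/-!
The decoder, a continuous map on the coanalytic set.
-/

set_option autoImplicit false

open Ordinal Set MeasureTheory

namespace Pool.Agent.P8H88.HJ

/-- A common starting base point. -/
theorem exists_start {C : Set BS} {T : BS → Set (List ℕ)} (h : Rep C T) {β : Ordinal.{0}}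
    (hβ : β < ω₁) {a : ℕ → BS}
    (hbase : ∀ s L, (∀ e ∈ L, e.2.2 < ω₁) → (∃ x ∈ A T s L, Ge (T x) β []) →
      ∃ j, a j ∈ Cl T s L) :
    ∃ j₀, ∀ ρ < ω₁, ∃ ρ₀ σ, ρ ≤ ρ₀ ∧ ρ₀ < ω₁ ∧ σ < ω₁ ∧
      a j₀ ∈ Cl T [] [(true, [], ρ₀), (false, [], σ)] := by
  by_contra hc
  push Not at hc
  choose r hr hr2 using hc
  have h1 : (⨆ j, r j) < ω₁ := Ordinal.iSup_lt_omega_one hr
  obtain ⟨x, hx, hge⟩ := h.unbounded (max_lt h1 hβ)
  set ρ₀ := max (⨆ j, r j) β with hρ₀
  have hσ : rk (T x) [] < ω₁ := h.rk_lt hx []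
  obtain ⟨j, hj⟩ := hbase [] [(true, [], ρ₀), (false, [], rk (T x) [])] (by
    intro e he
    simp only [List.mem_cons, List.not_mem_nil, or_false] at he
    rcases he with rfl | rfl
    · exact max_lt h1 hβ
    · exact hσ) ⟨x, ⟨pre_nil x, by
    intro e he
    simp only [List.mem_cons, List.not_mem_nil, or_false] at he
    rcases he with rfl | rfl
    · exact ⟨fun _ => hge, fun hf => by simp at hf⟩
    · exact ⟨fun hf => by simp at hf, fun _ => not_ge_iff_wf.2 ⟨h.wf hx [], le_rfl⟩⟩⟩,
    hge.mono (le_max_right _ _)⟩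
  exact hr2 j ρ₀ (rk (T x) []) ((Ordinal.le_iSup r j).trans (le_max_left _ _)) (max_lt h1 hβ) hσ hj

/-- The parameters of the decoder. -/
structure Par where
  /-- the coanalytic set whose projection is the image -/
  P : Set (BS × BS)
  /-- its trees -/
  S : BS × BS → Set (List ℕ)
  /-- the trees of the domain -/
  T : BS → Set (List ℕ)
  /-- the base points -/
  a : ℕ → BS
  /-- the colourings -/
  col : ℕ → ℕ → (ℕ × ℕ) × Dat
  /-- the index of the first base point -/
  j₀ : ℕ

namespace Par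

variable (D : Par)

/-- The indices of the base points. -/
noncomputable def J (x : BS) : ℕ → ℕ
  | 0 => D.j₀
  | k + 1 => (D.col (J x k) (PiNat.firstDiff x (D.a (J x k)))).2.2.2

/-- The data read at step `k`. -/
noncomputable def O (x : BS) (k : ℕ) : (ℕ × ℕ) × Dat :=
  D.col (D.J x k) (PiNat.firstDiff x (D.a (D.J x k)))

/-- The point which is read. -/
noncomputable def y (x : BS) : BS := fun k => (D.O x k).1.1

/-- The witness which is read. -/
noncomputable def v (x : BS) : BS := fun k => (D.O x k).1.2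

/-- The nodes which are read. -/
noncomputable def t (x : BS) (k : ℕ) : List ℕ := (D.O x k).2.2.1

/-- The map of the nodes. -/
noncomputable def e (x : BS) (u : List ℕ) : List ℕ :=
  if u = [] then [] else D.t x (Encodable.encode u)

/-- The check at step `k`. -/
def Ok (x : BS) (k : ℕ) : Prop :=
  (∃ p ∈ D.P, (∀ i ≤ k, p.1 i = D.y x i) ∧ ∀ i ≤ k, p.2 i = D.v x i) ∧
  ∀ c u, nd k = c :: u → (c :: u) ∈ D.S (D.y x, D.v x) →
    D.t x k ∈ D.T x ∧ ∃ i, D.t x k = i :: D.e x u

open Classical in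
/-- A member of `P` with given initial segments. -/
noncomputable def sel (s t : List ℕ) : BS × BS :=
  if h : ∃ p ∈ D.P, Pre s p.1 ∧ Pre t p.2 then h.choose else (0, 0)

open Classical in
/-- The value of the decoder. -/
noncomputable def G (x : BS) : BS × BS :=
  if h : ∃ k, ¬ D.Ok x k then
    D.sel (PiNat.res (D.y x) (Nat.find h)) (PiNat.res (D.v x) (Nat.find h))
  else (D.y x, D.v x)

theorem G_of_ok {x : BS} (h : ∀ k, D.Ok x k) : D.G x = (D.y x, D.v x) := by
  unfold G
  rw [dif_neg]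
  push Not
  exact h

theorem G_of_first {x : BS} {k : ℕ} (h : ¬ D.Ok x k) (h2 : ∀ i < k, D.Ok x i) :
    D.G x = D.sel (PiNat.res (D.y x) k) (PiNat.res (D.v x) k) := by
  classical
  have hex : ∃ k, ¬ D.Ok x k := ⟨k, h⟩
  have hk : Nat.find hex = k := by
    rw [Nat.find_eq_iff]
    exact ⟨h, fun i hi => not_not.2 (h2 i hi)⟩
  unfold G
  rw [dif_pos hex]
  have h3 : ∀ m, m = k → D.sel (PiNat.res (D.y x) m) (PiNat.res (D.v x) m) =
      D.sel (PiNat.res (D.y x) k) (PiNat.res (D.v x) k) := by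
    rintro m rfl; rfl
  convert h3 _ hk

/-- What is assumed about the parameters. -/
structure Good (C : Set BS) : Prop where
  rep : Rep C D.T
  tail : ∀ p u i, (i :: u) ∈ D.S p → u ∈ D.S p
  loc : ∀ p q u, (∀ k < u.length, p.1 k = q.1 k) → (∀ k < u.length, p.2 k = q.2 k) →
      u ∈ D.S p → u ∈ D.S q
  mem : ∀ p, p ∈ D.P ↔ Wf (D.S p) []
  a : ∀ j, D.a j ∉ C
  ne : D.P.Nonempty

variable {D} {C : Set BS}

theorem sel_mem (s t : List ℕ) (h : ∃ p ∈ D.P, Pre s p.1 ∧ Pre t p.2) :
    D.sel s t ∈ D.P ∧ Pre s (D.sel s t).1 ∧ Pre t (D.sel s t).2 := by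
  unfold sel
  rw [dif_pos h]
  exact ⟨h.choose_spec.1, h.choose_spec.2.1, h.choose_spec.2.2⟩

theorem first_mem (hD : D.Good C) {x : BS} {k : ℕ} (h2 : ∀ i < k, D.Ok x i) :
    ∃ p ∈ D.P, Pre (PiNat.res (D.y x) k) p.1 ∧ Pre (PiNat.res (D.v x) k) p.2 := by
  rcases k with _ | k
  · obtain ⟨p, hp⟩ := hD.ne
    exact ⟨p, hp, rfl, rfl⟩
  · obtain ⟨⟨p, hp, h3, h4⟩, _⟩ := h2 k (Nat.lt_succ_self k)
    refine ⟨p, hp, ?_, ?_⟩
    · exact (pre_res _ _).of_agree fun i hi => by
        rw [PiNat.res_length] at hi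
        exact (h3 i (by omega)).symm
    · exact (pre_res _ _).of_agree fun i hi => by
        rw [PiNat.res_length] at hi
        exact (h4 i (by omega)).symm

theorem G_mem (hD : D.Good C) {x : BS} (hx : x ∈ C) : D.G x ∈ D.P := by
  classical
  by_cases h : ∀ k, D.Ok x k
  · rw [G_of_ok D h, hD.mem]
    have hs : Sim (D.S (D.y x, D.v x)) [] (D.T x) [] := by
      refine ⟨{p | p.2 = D.e x p.1}, by simp [e], ?_⟩
      rintro u t ht i hi
      have ht' : t = D.e x u := ht
      subst ht'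
      set k := Encodable.encode (i :: u) with hk
      have hn : nd k = i :: u := nd_encode _
      obtain ⟨h1, j, h2⟩ := (h k).2 i u hn hi
      refine ⟨j, h2 ▸ h1, ?_⟩
      show j :: D.e x u = D.e x (i :: u)
      rw [← h2, e, if_neg (by simp)]
    exact hs.wf ((hD.rep.mem x).1 hx)
  · push Not at h
    have h1 : ¬ D.Ok x (Nat.find h) := Nat.find_spec h
    have h2 : ∀ i < Nat.find h, D.Ok x i := fun i hi => not_not.1 (Nat.find_min h hi)
    rw [G_of_first D h1 h2]
    exact (sel_mem _ _ (first_mem hD h2)).1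

theorem firstDiff_eq {x x' b : BS} (hne : x ≠ b)
    (h : ∀ i ≤ PiNat.firstDiff x b, x' i = x i) : PiNat.firstDiff x' b = PiNat.firstDiff x b := by
  have h1 : x' (PiNat.firstDiff x b) ≠ b (PiNat.firstDiff x b) := by
    rw [h _ le_rfl]
    exact PiNat.apply_firstDiff_ne hne
  have hne' : x' ≠ b := fun hc => h1 (by rw [hc])
  apply le_antisymm
  · by_contra hc
    push Not at hc
    exact h1 (PiNat.apply_eq_of_lt_firstDiff hc)
  · by_contra hc
    push Not at hc
    apply PiNat.apply_firstDiff_ne hne'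
    rw [h _ hc.le]
    exact PiNat.apply_eq_of_lt_firstDiff hc

theorem eventually_O (hD : D.Good C) {x : BS} (hx : x ∈ C) (k : ℕ) :
    ∀ᶠ x' in nhds x, D.J x' k = D.J x k ∧ D.O x' k = D.O x k := by
  have key : ∀ k, (∀ᶠ x' in nhds x, D.J x' k = D.J x k) →
      ∀ᶠ x' in nhds x, D.J x' k = D.J x k ∧ D.O x' k = D.O x k := by
    intro k hk
    have hne : x ≠ D.a (D.J x k) := fun he => hD.a _ (he ▸ hx)
    filter_upwards [hk, eventually_prefix x (PiNat.firstDiff x (D.a (D.J x k)) + 1)] with x' h1 h2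
    refine ⟨h1, ?_⟩
    unfold O
    rw [h1, firstDiff_eq hne fun i hi => h2 i (by omega)]
  induction k with
  | zero => exact key 0 (Filter.Eventually.of_forall fun _ => rfl)
  | succ k ih =>
    apply key
    filter_upwards [ih] with x' h
    have h2 := congrArg (fun o => o.2.2.2) h.2
    exact h2

theorem eventually_O_all (hD : D.Good C) {x : BS} (hx : x ∈ C) (k : ℕ) :
    ∀ᶠ x' in nhds x, ∀ i ≤ k, D.O x' i = D.O x i := by
  have h : ∀ᶠ x' in nhds x, ∀ i ∈ {i | i ≤ k}, D.O x' i = D.O x i := by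
    rw [Filter.eventually_all_finite (Set.finite_le_nat k)]
    exact fun i _ => (eventually_O hD hx i).mono fun x' h => h.2
  exact h

theorem eventually_Ok (hD : D.Good C) {x : BS} (hx : x ∈ C) (k : ℕ) :
    ∀ᶠ x' in nhds x, (D.Ok x' k ↔ D.Ok x k) := by
  filter_upwards [eventually_O_all hD hx k, eventually_prefix x (D.t x k).length] with x' h1 h2
  have hy : ∀ i ≤ k, D.y x' i = D.y x i := fun i hi => by
    unfold y; rw [h1 i hi]
  have hv : ∀ i ≤ k, D.v x' i = D.v x i := fun i hi => by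
    unfold v; rw [h1 i hi]
  have ht : ∀ i ≤ k, D.t x' i = D.t x i := fun i hi => by
    unfold t; rw [h1 i hi]
  unfold Ok
  refine and_congr ?_ ?_
  · refine exists_congr fun p => and_congr_right fun _ => and_congr ?_ ?_
    · exact forall_congr' fun i => imp_congr_right fun hi => by rw [hy i hi]
    · exact forall_congr' fun i => imp_congr_right fun hi => by rw [hv i hi]
  · refine forall_congr' fun c => forall_congr' fun u => imp_congr_right fun hu => ?_
    have hk : Encodable.encode (c :: u) = k := by rw [← hu, encode_nd]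
    have hlen : (c :: u).length ≤ k := hk ▸ length_le_encode _
    have he : D.e x' u = D.e x u := by
      unfold e
      by_cases hu0 : u = []
      · rw [if_pos hu0, if_pos hu0]
      · rw [if_neg hu0, if_neg hu0, ht]
        exact ((encode_tail_lt c u).trans_eq hk).le
    refine imp_congr ?_ ?_
    · constructor
      · exact hD.loc _ _ _ (fun i hi => hy i (hi.le.trans hlen)) (fun i hi => hv i (hi.le.trans hlen))
      · exact hD.loc _ _ _ (fun i hi => (hy i (hi.le.trans hlen)).symm)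
          (fun i hi => (hv i (hi.le.trans hlen)).symm)
    · rw [ht k le_rfl, he]
      refine and_congr ?_ Iff.rfl
      constructor
      · exact hD.rep.loc _ _ _ fun i hi => h2 i hi
      · exact hD.rep.loc _ _ _ fun i hi => (h2 i hi).symm

theorem eventually_Ok_all (hD : D.Good C) {x : BS} (hx : x ∈ C) (k : ℕ) :
    ∀ᶠ x' in nhds x, ∀ i ≤ k, (D.Ok x' i ↔ D.Ok x i) := by
  have h : ∀ᶠ x' in nhds x, ∀ i ∈ {i | i ≤ k}, (D.Ok x' i ↔ D.Ok x i) := by
    rw [Filter.eventually_all_finite (Set.finite_le_nat k)]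
    exact fun i _ => eventually_Ok hD hx i
  exact h

theorem eventually_G (hD : D.Good C) {x : BS} (hx : x ∈ C) (n : ℕ) :
    ∀ᶠ x' in nhds x, (D.G x').1 n = (D.G x).1 n := by
  classical
  by_cases h : ∀ k, D.Ok x k
  · filter_upwards [eventually_O_all hD hx n, eventually_Ok_all hD hx n] with x' h1 h2
    have hy : ∀ i ≤ n, D.y x' i = D.y x i := fun i hi => by
      unfold y; rw [h1 i hi]
    rw [G_of_ok D h]
    by_cases h' : ∀ k, D.Ok x' k
    · rw [G_of_ok D h']
      exact hy n le_rfl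
    · push Not at h'
      have h3 : ¬ D.Ok x' (Nat.find h') := Nat.find_spec h'
      have h4 : ∀ i < Nat.find h', D.Ok x' i := fun i hi => not_not.1 (Nat.find_min h' hi)
      rw [G_of_first D h3 h4]
      have h5 : n < Nat.find h' := by
        by_contra hc
        push Not at hc
        exact h3 ((h2 _ hc).2 (h _))
      have h6 := (sel_mem _ _ (first_mem hD h4)).2.1
      have h7 := h6.agree (pre_res (D.y x') (Nat.find h')) n (by rw [PiNat.res_length]; exact h5)
      rw [h7]
      exact hy n le_rfl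
  · push Not at h
    set k := Nat.find h with hk
    have h3 : ¬ D.Ok x k := Nat.find_spec h
    have h4 : ∀ i < k, D.Ok x i := fun i hi => not_not.1 (Nat.find_min h hi)
    filter_upwards [eventually_O_all hD hx k, eventually_Ok_all hD hx k] with x' h1 h2
    have h5 : ¬ D.Ok x' k := fun hc => h3 ((h2 k le_rfl).1 hc)
    have h6 : ∀ i < k, D.Ok x' i := fun i hi => (h2 i hi.le).2 (h4 i hi)
    rw [G_of_first D h3 h4, G_of_first D h5 h6]
    have e1 : PiNat.res (D.y x') k = PiNat.res (D.y x) k :=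
      PiNat.res_eq_res.2 fun {i} hi => by unfold y; rw [h1 i hi.le]
    have e2 : PiNat.res (D.v x') k = PiNat.res (D.v x) k :=
      PiNat.res_eq_res.2 fun {i} hi => by unfold v; rw [h1 i hi.le]
    rw [e1, e2]

theorem continuous_G (hD : D.Good C) : Continuous fun x : C => (D.G x.1).1 := by
  rw [continuous_pi_iff]
  intro n
  rw [continuous_iff_continuousAt]
  intro x
  have h := eventually_G hD x.2 n
  have h2 : ∀ᶠ x' : C in nhds x, (D.G x'.1).1 n = (D.G x.1).1 n :=
    (continuous_subtype_val.tendsto x).eventually h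
  exact tendsto_const_nhds.congr' (h2.mono fun _ h => h.symm)

end Par

end Pool.Agent.P8H88.HJ
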