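import Mathlib
import Pool.Agent.P8H88.HJ.Rk
import Pool.Agent.P8H88.HJ.Tree
import Pool.Agent.P8H88.HJ.Unif
import Pool.Agent.P8H88.HJ.Fam
import Pool.Agent.P8H88.HJ.Cond
import Pool.Agent.P8H88.HJ.Pts
import Pool.Agent.P8H88.HJ.Step
import Pool.Agent.P8H88.HJ.Dec

/-!
The decoder is onto the coanalytic set, and the main theorem.
-/

set_option autoImplicit false

open Ordinal Set MeasureTheory

namespace Pool.Agent.P8H88.HJ

/-- A state of the construction: a condition, the index of a base point, and the nodes chosen. -/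
structure St where
  /-- the initial segment -/
  s : List ℕ
  /-- the constraints -/
  L : List Con
  /-- the index of the base point -/
  j : ℕ
  /-- the chosen nodes -/
  e : ℕ → List ℕ

/-- The node assigned to `u`. -/
noncomputable def St.en (st : St) (u : List ℕ) : List ℕ :=
  if u = [] then [] else st.e (Encodable.encode u)

/-- The invariant. -/
structure Inv (D : Par) (p : BS × BS) (ρ₀ σ₀ : Ordinal.{0}) (k : ℕ) (st : St) : Prop where
  ord : ∀ e ∈ st.L, e.2.2 < ω₁
  cl : D.a st.j ∈ Cl D.T st.s st.L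
  up : (false, [], σ₀) ∈ st.L
  low : (true, [], ρ₀) ∈ st.L
  nodes : ∀ u, u ≠ [] → u ∈ D.S p → Encodable.encode u < k →
    (true, st.e (Encodable.encode u), rk (D.S p) u) ∈ st.L

/-- The relation between two consecutive states. -/
def Rel (C : Set BS) (D : Par) (p : BS × BS) (k : ℕ) (st st' : St) : Prop :=
  ∃ (m : ℕ) (φ : Ordinal.{0}) (x : BS),
    D.col st.j m = ((p.1 k, p.2 k), st'.s, st'.e k, st'.j) ∧ st.s <:+ st'.s ∧
    k < st'.s.length ∧ m < st'.s.length ∧ (st'.e k).length ≤ st'.s.length ∧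
    x ∈ C ∧ x ∈ A D.T st.s st.L ∧ Pre st'.s x ∧ PiNat.firstDiff x (D.a st.j) = m ∧
    st'.e k ∈ D.T x ∧ φ = rk (D.T x) (nd k) ∧
    (∃ ρ' : Ordinal.{0}, st'.L = (true, st'.e k, ρ') :: (false, nd k, φ) :: st.L) ∧
    (∀ i, i ≠ k → st'.e i = st.e i) ∧
    (∀ c u, nd k = c :: u → (c :: u) ∈ D.S p → ∃ i, st'.e k = i :: st.en u)

theorem exists_next {C : Set BS} {D : Par} (hD : D.Good C) {β : Ordinal.{0}}
    (hbase : ∀ s L, (∀ e ∈ L, e.2.2 < ω₁) → (∃ x ∈ A D.T s L, Ge (D.T x) β []) →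
      ∃ j, D.a j ∈ Cl D.T s L)
    (hcol : ∀ s j k L, (∀ e ∈ L, e.2.2 < ω₁) →
      {m | ∃ w, (m, w) ∈ Phi D.T D.a s j k L}.Infinite → ∀ n : ℕ × ℕ,
        ∃ m, (D.col j m).1 = n ∧ (m, (D.col j m).2) ∈ Phi D.T D.a s j k L)
    {p : BS × BS} (hp : p ∈ D.P) {ρ₀ σ₀ : Ordinal.{0}} (h1 : 1 ≤ ρ₀) (hβ : β ≤ ρ₀)
    (hρ₀ : rk (D.S p) [] ≤ ρ₀) (k : ℕ) (st : St) (hst : Inv D p ρ₀ σ₀ k st) :
    ∃ st', Inv D p ρ₀ σ₀ (k + 1) st' ∧ Rel C D p k st st' := by
  classical
  have hwf : ∀ u, Wf (D.S p) u ∧ rk (D.S p) u < ω₁ := by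
    intro u
    obtain ⟨α, h0, h2⟩ := wf_all (hD.tail p) ((hD.mem p).1 hp) u
    have hw : Wf (D.S p) u := ⟨α, h2⟩
    refine ⟨hw, ?_⟩
    by_contra hc
    push Not at hc
    exact h2 (hw.ge_iff_le_rk.2 (h0.le.trans hc))
  -- the requested parent and rank
  have hreq : ∃ (τ₀ : List ℕ) (ρ' : Ordinal.{0}), ρ' < ω₁ ∧
      (∀ x ∈ A D.T st.s st.L, ∃ i, (i :: τ₀) ∈ D.T x ∧ Ge (D.T x) ρ' (i :: τ₀)) ∧
      (∀ c u, nd k = c :: u → (c :: u) ∈ D.S p → τ₀ = st.en u ∧ ρ' = rk (D.S p) (c :: u)) := by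
    by_cases hk : ∃ c u, nd k = c :: u ∧ (c :: u) ∈ D.S p
    · obtain ⟨c, u, hn, hu⟩ := hk
      refine ⟨st.en u, rk (D.S p) (c :: u), (hwf _).2, ?_, ?_⟩
      · intro x hx
        have hu' : u ∈ D.S p := hD.tail p u c hu
        have hlt : rk (D.S p) (c :: u) < rk (D.S p) u := (hwf u).1.rk_child_lt hu
        have hge : Ge (D.T x) (rk (D.S p) u) (st.en u) := by
          by_cases hu0 : u = []
          · subst hu0
            simp only [St.en, if_true]
            exact ((hx.2 _ hst.low).1 rfl).mono hρ₀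
          · have hlt2 : Encodable.encode u < k := by
              have := encode_tail_lt c u
              rw [← hn, encode_nd] at this
              exact this
            have h2 := (hx.2 _ (hst.nodes u hu0 hu' hlt2)).1 rfl
            simp only [St.en, if_neg hu0]
            exact h2
        exact (ge_iff.1 hge) _ hlt
      · intro c' u' hn' hu'
        rw [hn] at hn'
        obtain ⟨rfl, rfl⟩ := List.cons.inj hn'
        exact ⟨rfl, rfl⟩
    · push Not at hk
      refine ⟨[], 0, Ordinal.omega_pos 1, ?_, fun c u hn hu => absurd hu (hk c u hn)⟩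
      intro x hx
      have hge := ((hx.2 _ hst.low).1 rfl).mono h1
      exact (ge_iff.1 hge) 0 zero_lt_one
  obtain ⟨τ₀, ρ', hρ', hext, hτ₀⟩ := hreq
  obtain ⟨m, s', τ, j', φ, x, hc, hsuf, hk, hm, hτ, ⟨i, hi⟩, hφ, hxC, hxA, hpre, hfd, hτT, hφ2,
    hcl⟩ := step hD.rep hD.a hbase hcol k (p.1 k, p.2 k) hst.ord hst.cl hst.up hst.low hβ hρ' hext
  refine ⟨⟨s', (true, τ, ρ') :: (false, nd k, φ) :: st.L, j', Function.update st.e k τ⟩, ?_, ?_⟩
  · refine ⟨?_, hcl, ?_, ?_, ?_⟩
    · intro e he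
      rcases List.mem_cons.1 he with rfl | he
      · exact hρ'
      · rcases List.mem_cons.1 he with rfl | he
        · exact hφ
        · exact hst.ord e he
    · exact List.mem_cons_of_mem _ (List.mem_cons_of_mem _ hst.up)
    · exact List.mem_cons_of_mem _ (List.mem_cons_of_mem _ hst.low)
    · intro u hu0 hu hlt
      rcases Nat.lt_succ_iff_lt_or_eq.1 hlt with h2 | h2
      · have h3 := hst.nodes u hu0 hu h2
        simp only [Function.update_of_ne h2.ne]
        exact List.mem_cons_of_mem _ (List.mem_cons_of_mem _ h3)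
      · simp only [h2, Function.update_self]
        have hn : nd k = u := by rw [← h2, nd_encode]
        rcases u with _ | ⟨c, u⟩
        · exact absurd rfl hu0
        · obtain ⟨_, h3⟩ := hτ₀ c u hn hu
          rw [← h3]
          exact List.mem_cons_self
  · refine ⟨m, φ, x, ?_, hsuf, hk, hm, ?_, hxC, hxA, hpre, hfd, ?_, hφ2, ⟨ρ', ?_⟩, ?_, ?_⟩
    · simp only [Function.update_self]; exact hc
    · simp only [Function.update_self]; exact hτ
    · simp only [Function.update_self]; exact hτT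
    · simp only [Function.update_self]
    · intro i hi
      simp only [Function.update_of_ne hi]
    · intro c u hn hu
      simp only [Function.update_self]
      exact ⟨i, by rw [hi, (hτ₀ c u hn hu).1]⟩

/-- **The decoder is onto.** -/
theorem exists_preimage {C : Set BS} {D : Par} (hD : D.Good C) {β : Ordinal.{0}} (hβ : β < ω₁)
    (hbase : ∀ s L, (∀ e ∈ L, e.2.2 < ω₁) → (∃ x ∈ A D.T s L, Ge (D.T x) β []) →
      ∃ j, D.a j ∈ Cl D.T s L)
    (hcol : ∀ s j k L, (∀ e ∈ L, e.2.2 < ω₁) →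
      {m | ∃ w, (m, w) ∈ Phi D.T D.a s j k L}.Infinite → ∀ n : ℕ × ℕ,
        ∃ m, (D.col j m).1 = n ∧ (m, (D.col j m).2) ∈ Phi D.T D.a s j k L)
    (hstart : ∀ ρ < ω₁, ∃ ρ₀ σ, ρ ≤ ρ₀ ∧ ρ₀ < ω₁ ∧ σ < ω₁ ∧
      D.a D.j₀ ∈ Cl D.T [] [(true, [], ρ₀), (false, [], σ)])
    {p : BS × BS} (hp : p ∈ D.P) : ∃ x ∈ C, D.G x = p := by
  classical
  have hr : rk (D.S p) [] < ω₁ := by
    obtain ⟨α, h0, h2⟩ := wf_all (hD.tail p) ((hD.mem p).1 hp) []
    have hw : Wf (D.S p) [] := ⟨α, h2⟩
    by_contra hc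
    push Not at hc
    exact h2 (hw.ge_iff_le_rk.2 (h0.le.trans hc))
  have h1ω : (1 : Ordinal.{0}) < ω₁ := by
    have := add_one_lt_omega1 (Ordinal.omega_pos 1)
    simpa using this
  obtain ⟨ρ₀, σ₀, hle, hρ₀, hσ₀, hcl0⟩ :=
    hstart (max (max (rk (D.S p) []) β) 1) (max_lt (max_lt hr hβ) h1ω)
  have hle1 : 1 ≤ ρ₀ := (le_max_right _ _).trans hle
  have hleβ : β ≤ ρ₀ := ((le_max_right _ _).trans (le_max_left _ _)).trans hle
  have hler : rk (D.S p) [] ≤ ρ₀ := ((le_max_left _ _).trans (le_max_left _ _)).trans hle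
  have next := fun (k : ℕ) (st : {st // Inv D p ρ₀ σ₀ k st}) =>
    exists_next (C := C) hD hbase hcol hp hle1 hleβ hler k st.1 st.2
  choose nx hnx1 hnx2 using next
  have h0 : Inv D p ρ₀ σ₀ 0 ⟨[], [(true, [], ρ₀), (false, [], σ₀)], D.j₀, fun _ => []⟩ := by
    refine ⟨?_, hcl0, by simp, by simp, fun u _ _ hlt => absurd hlt (Nat.not_lt_zero _)⟩
    intro e he
    simp only [List.mem_cons, List.not_mem_nil, or_false] at he
    rcases he with rfl | rfl
    · exact hρ₀
    · exact hσ₀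
  let seq : (k : ℕ) → {st // Inv D p ρ₀ σ₀ k st} := fun k =>
    Nat.rec ⟨_, h0⟩ (fun k st => ⟨nx k st, hnx1 k st⟩) k
  let q : ℕ → St := fun k => (seq k).1
  have hq0 : q 0 = ⟨[], [(true, [], ρ₀), (false, [], σ₀)], D.j₀, fun _ => []⟩ := rfl
  have hrel : ∀ k, Rel C D p k (q k) (q (k + 1)) := fun k => hnx2 k (seq k)
  clear_value q
  choose m φ x hc hsuf hk hm hτ hxC hxA hpre hfd hτT hφ hL he hch using hrel
  -- the suffix chain
  have hchain : ∀ k d, (q (k + 1)).s <:+ (q (k + 1 + d)).s := by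
    intro k d
    induction d with
    | zero => exact List.suffix_rfl
    | succ d ih => exact ih.trans (hsuf _)
  have hchain' : ∀ k k', k ≤ k' → (q (k + 1)).s <:+ (q (k' + 1)).s := by
    intro k k' h
    obtain ⟨d, rfl⟩ := Nat.exists_eq_add_of_le h
    have := hchain k d
    rwa [show k + 1 + d = k + d + 1 by ring] at this
  let X : BS := fun n => x n n
  have hX : ∀ k, ∀ i < (q (k + 1)).s.length, X i = x k i := by
    intro k i hi
    show x i i = x k i
    rcases le_total i k with h | h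
    · exact ((hpre i).agree ((hpre k).suffix (hchain' i k h))) i (hk i)
    · exact ((hpre i).suffix (hchain' k i h)).agree (hpre k) i hi
  have hXpre : ∀ k, Pre (q (k + 1)).s X := fun k =>
    (hpre k).of_agree fun i hi => (hX k i hi).symm
  -- constraints are kept
  have hLmono : ∀ k d, (q (k + 1)).L ⊆ (q (k + 1 + d)).L := by
    intro k d
    induction d with
    | zero => exact List.Subset.refl _
    | succ d ih =>
      obtain ⟨ρ', h2⟩ := hL (k + 1 + d)
      rw [← add_assoc, h2]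
      exact fun e he => List.mem_cons_of_mem _ (List.mem_cons_of_mem _ (ih he))
  have hLup : ∀ i k, i < k → (false, nd i, φ i) ∈ (q k).L := by
    intro i k hik
    obtain ⟨d, hd⟩ := Nat.exists_eq_add_of_le (Nat.succ_le_of_lt hik)
    have h2 : (false, nd i, φ i) ∈ (q (i + 1)).L := by
      obtain ⟨ρ', h3⟩ := hL i
      rw [h3]
      exact List.mem_cons_of_mem _ List.mem_cons_self
    have h3 := hLmono i d h2
    rw [hd]
    exact h3
  -- the chosen nodes are kept
  have hekeep : ∀ i d, (q (i + 1 + d)).e i = (q (i + 1)).e i := by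
    intro i d
    induction d with
    | zero => rfl
    | succ d ih => rw [← ih, ← add_assoc, he (i + 1 + d) i (by omega)]
  have hekeep' : ∀ i k, i < k → (q k).e i = (q (i + 1)).e i := by
    intro i k hik
    obtain ⟨d, hd⟩ := Nat.exists_eq_add_of_le (Nat.succ_le_of_lt hik)
    have h2 := hekeep i d
    rw [hd]
    exact h2
  -- upper bounds decrease
  have hdec : ∀ c u, (c :: u) ∈ D.T X →
      φ (Encodable.encode (c :: u)) < φ (Encodable.encode u) := by
    intro c u hu
    set k := Encodable.encode (c :: u) with hkdef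
    set i := Encodable.encode u with hidef
    have hik : i < k := encode_tail_lt c u
    have hnk : nd k = c :: u := nd_encode _
    have hni : nd i = u := nd_encode _
    have hlen : (c :: u).length ≤ k := length_le_encode _
    have hu' : (c :: u) ∈ D.T (x k) :=
      hD.rep.loc _ _ _ (fun j hj => hX k j ((hj.trans_le hlen).trans (hk k))) hu
    have h2 := ((hxA k).2 _ (hLup i k hik)).2 rfl
    rw [hni] at h2
    have h3 := (not_ge_iff_wf.1 h2).2
    rw [hφ k, hnk]
    exact ((hD.rep.wf (hxC k) u).rk_child_lt hu').trans_le h3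
  have hXC : X ∈ C := by
    rw [hD.rep.mem]
    have := wf_of_no_path (T := D.T X) (u := []) ?_
    · obtain ⟨α, _, h⟩ := this
      exact ⟨α, h⟩
    · rintro ⟨z, hz0, hz⟩
      have hlt : ∀ n, φ (Encodable.encode (z (n + 1))) < φ (Encodable.encode (z n)) := by
        intro n
        obtain ⟨h2, c, h3⟩ := hz n
        rw [h3] at h2 ⊢
        exact hdec c (z n) h2
      exact (RelEmbedding.natGT (fun n => φ (Encodable.encode (z n))) hlt).not_wellFounded
        (wellFounded_lt (α := Ordinal.{0}))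
  refine ⟨X, hXC, ?_⟩
  have hfdX : ∀ k, PiNat.firstDiff X (D.a (q k).j) = m k := by
    intro k
    have hne : x k ≠ D.a (q k).j := fun hc => hD.a _ (hc ▸ hxC k)
    rw [← hfd k]
    refine Par.firstDiff_eq hne fun i hi => hX k i ?_
    rw [hfd k] at hi
    exact hi.trans_lt (hm k)
  have hJ : ∀ k, D.J X k = (q k).j := by
    intro k
    induction k with
    | zero => rw [hq0]; rfl
    | succ k ih =>
      show (D.col (D.J X k) (PiNat.firstDiff X (D.a (D.J X k)))).2.2.2 = _
      rw [ih, hfdX k, hc k]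
  have hO : ∀ k, D.O X k = ((p.1 k, p.2 k), (q (k + 1)).s, (q (k + 1)).e k, (q (k + 1)).j) := by
    intro k
    unfold Par.O
    rw [hJ k, hfdX k, hc k]
  have hy : D.y X = p.1 := by
    funext k; unfold Par.y; rw [hO k]
  have hv : D.v X = p.2 := by
    funext k; unfold Par.v; rw [hO k]
  have ht : ∀ k, D.t X k = (q (k + 1)).e k := by
    intro k; unfold Par.t; rw [hO k]
  have hok : ∀ k, D.Ok X k := by
    intro k
    refine ⟨⟨p, hp, fun i _ => by rw [hy], fun i _ => by rw [hv]⟩, ?_⟩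
    intro c u hn hu
    rw [hy, hv] at hu
    constructor
    · rw [ht k]
      refine hD.rep.loc _ _ _ (fun i hi => ?_) (hτT k)
      exact (hX k i (hi.trans_le (hτ k))).symm
    · obtain ⟨i, hi⟩ := hch k c u hn hu
      refine ⟨i, ?_⟩
      rw [ht k, hi]
      congr 1
      unfold St.en Par.e
      by_cases hu0 : u = []
      · rw [if_pos hu0, if_pos hu0]
      · rw [if_neg hu0, if_neg hu0, ht]
        apply hekeep'
        have := encode_tail_lt c u
        rwa [← hn, encode_nd] at this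
  rw [Par.G_of_ok D hok, hy, hv]

/-- **Main theorem.** Under the perfect set property of coanalytic sets, every nonempty projection
of a coanalytic set is a continuous image of every coanalytic set which is not Borel. -/
theorem main (psp : PSP) (P : Set (BS × BS)) (hP : AnalyticSet Pᶜ) (hne : P.Nonempty)
    (C : Set BS) (hC : AnalyticSet Cᶜ) (hn : ¬ MeasurableSet C) :
    ∃ f : C → (Prod.fst '' P), Continuous f ∧ Function.Surjective f := by
  obtain ⟨T, hT⟩ := exists_rep C hC hn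
  obtain ⟨S, hS1, hS2, hS3⟩ := exists_tree P hP
  obtain ⟨β, hβ, a, ha, hbase⟩ := exists_base psp hT hC
  obtain ⟨col, hcol⟩ := exists_cols psp hT hC a
  obtain ⟨j₀, hj₀⟩ := exists_start hT hβ hbase
  let D : Par := ⟨P, S, T, a, col, j₀⟩
  have hD : D.Good C := ⟨hT, hS1, hS2, hS3, ha, hne⟩
  refine ⟨fun x => ⟨(D.G x.1).1, D.G x.1, Par.G_mem hD x.2, rfl⟩, ?_, ?_⟩
  · exact (Par.continuous_G hD).subtype_mk _
  · rintro ⟨_, p, hp, rfl⟩
    obtain ⟨x, hx, hG⟩ := exists_preimage hD hβ hbase hcol hj₀ hp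
    refine ⟨⟨x, hx⟩, ?_⟩
    apply Subtype.ext
    show (D.G x).1 = p.1
    rw [hG]

end Pool.Agent.P8H88.HJ
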