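import Mathlib
import Pool.Agent.P8H88.HJ.Rk
import Pool.Agent.P8H88.HJ.Tree
import Pool.Agent.P8H88.HJ.Unif
import Pool.Agent.P8H88.HJ.Fam
import Pool.Agent.P8H88.HJ.Cond
import Pool.Agent.P8H88.HJ.Pts
import Pool.Agent.P8H88.HJ.Surj

/-!
The converse: if the Baire space is a continuous image of every coanalytic set which is not Borel,
up to countably many points, then coanalytic sets have the perfect set property.
-/

set_option autoImplicit false

open Ordinal Set MeasureTheory

namespace Pool.Agent.P8H88.HJ

/-- Uncountable Borel sets contain copies of the Cantor space. -/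
theorem cantor_of_borel {s : Set BS} (hs : MeasurableSet s) (hc : ¬ s.Countable) :
    ∃ g : (ℕ → Bool) → BS, range g ⊆ s ∧ Continuous g ∧ Function.Injective g := by
  obtain ⟨t', ht', hp, hcl, _⟩ := hs.isClopenable
  obtain ⟨g, h1, h2, h3⟩ :=
    @IsClosed.exists_nat_bool_injection_of_not_countable BS t' hp s hcl hc
  refine ⟨g, h1, ?_, h3⟩
  exact continuous_le_rng ht' h2

theorem perfect_of_borel {s : Set BS} (hs : MeasurableSet s) (hc : ¬ s.Countable) :
    ∃ P : Set BS, P ⊆ s ∧ Perfect P ∧ P.Nonempty := by
  obtain ⟨g, h1, h2, h3⟩ := cantor_of_borel hs hc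
  have hcl : IsClosed (range g) := (isCompact_range h2).isClosed
  have hunc : ¬ (range g).Countable := by
    intro h
    have : Countable (range g) := h.to_subtype
    exact not_countable_cantor (Set.rangeFactorization_injective.2 h3).countable
  obtain ⟨P, hP, hne, hsub⟩ := exists_perfect_nonempty_of_isClosed_of_not_countable hcl hunc
  exact ⟨P, hsub.trans h1, hP, hne⟩

theorem not_countable_univ : ¬ (Set.univ : Set BS).Countable := by
  intro h
  have h1 : Countable BS := Set.countable_univ_iff.1 h
  have h2 : Function.Injective fun b : ℕ → Bool => (fun n => (b n).toNat : BS) := by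
    intro b c hbc
    funext n
    have := congrFun hbc n
    simp only at this
    revert this
    cases b n <;> cases c n <;> simp
  exact not_countable_cantor h2.countable

/-- The set of the initial segments of a point, as a characteristic function. -/
noncomputable def ii (z : BS) : BS := by
  classical
  exact fun m => if Pre (nd m) z then 1 else 0

theorem ii_eq_one {z : BS} {m : ℕ} : ii z m = 1 ↔ Pre (nd m) z := by
  unfold ii
  by_cases h : Pre (nd m) z <;> simp [h]

theorem ii_ne_zero {z : BS} {m : ℕ} : ii z m ≠ 0 ↔ Pre (nd m) z := by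
  unfold ii
  by_cases h : Pre (nd m) z <;> simp [h]

theorem ii_eq_zero {z : BS} {m : ℕ} : ii z m = 0 ↔ ¬ Pre (nd m) z := by
  rw [← ii_ne_zero, not_not]

theorem ii_le_one (z : BS) (m : ℕ) : ii z m ≤ 1 := by
  unfold ii
  by_cases h : Pre (nd m) z <;> simp [h]

theorem continuous_ii : Continuous ii := by
  rw [continuous_pi_iff]
  intro m
  rw [continuous_iff_continuousAt]
  intro z
  have h : ∀ᶠ w in nhds z, ii w m = ii z m := by
    filter_upwards [eventually_prefix z (nd m).length] with w hw
    have : Pre (nd m) w ↔ Pre (nd m) z :=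
      ⟨fun h => h.of_agree hw, fun h => h.of_agree fun k hk => (hw k hk).symm⟩
    by_cases h : Pre (nd m) z
    · rw [ii_eq_one.2 h, ii_eq_one.2 (this.2 h)]
    · rw [ii_eq_zero.2 h, ii_eq_zero.2 (fun h2 => h (this.1 h2))]
  exact tendsto_const_nhds.congr' (h.mono fun _ h => h.symm)

theorem ii_injective : Function.Injective ii := by
  intro z w h
  funext n
  have h1 : Pre (nd (Encodable.encode (PiNat.res z (n + 1)))) z := by
    rw [nd_encode]; exact pre_res _ _
  have h2 : Pre (nd (Encodable.encode (PiNat.res z (n + 1)))) w := by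
    rw [← ii_eq_one, ← h, ii_eq_one]; exact h1
  refine h1.agree h2 n ?_
  rw [nd_encode, PiNat.res_length]
  exact Nat.lt_succ_self n

theorem encode_res_lt (z : BS) (k : ℕ) :
    Encodable.encode (PiNat.res z k) < Encodable.encode (PiNat.res z (k + 1)) := by
  rw [PiNat.res_succ]
  exact encode_tail_lt _ _

theorem encode_res_mono (z : BS) : StrictMono fun k => Encodable.encode (PiNat.res z k) :=
  strictMono_nat_of_lt_succ (encode_res_lt z)

theorem le_encode_res (z : BS) (k : ℕ) : z k ≤ Encodable.encode (PiNat.res z (k + 1)) := by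
  rw [PiNat.res_succ, Encodable.encode_list_cons]
  exact (Nat.left_le_pair _ _).trans (Nat.le_succ _)

/-- The characteristic functions of the finite sets. -/
noncomputable def Q : Set BS := by
  classical
  exact range fun s : Finset ℕ => (fun m => if m ∈ s then 1 else 0 : BS)

theorem countable_Q : Q.Countable := by
  unfold Q
  exact countable_range _

theorem mem_Q {c : BS} (h : ∀ m, c m ≤ 1) {n : ℕ} (hn : ∀ m, n ≤ m → c m = 0) : c ∈ Q := by
  classical
  unfold Q
  refine ⟨(Finset.range n).filter fun m => c m ≠ 0, ?_⟩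
  funext m
  simp only [Finset.mem_filter, Finset.mem_range]
  by_cases hm : m < n ∧ c m ≠ 0
  · rw [if_pos hm]
    have := h m
    have := hm.2
    omega
  · rw [if_neg hm]
    by_cases h1 : m < n
    · by_contra hne
      exact hm ⟨h1, fun h2 => hne h2.symm⟩
    · exact (hn m (by omega)).symm

theorem ii_notMem_Q (z : BS) : ii z ∉ Q := by
  classical
  unfold Q
  rintro ⟨s, hs⟩
  obtain ⟨b, hb⟩ := s.bddAbove
  have h1 : ii z (Encodable.encode (PiNat.res z (b + 1))) = 1 := by
    rw [ii_eq_one, nd_encode]; exact pre_res _ _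
  rw [← hs] at h1
  have h2 : Encodable.encode (PiNat.res z (b + 1)) ∈ s := by
    by_contra hc
    have h1' : (if Encodable.encode (PiNat.res z (b + 1)) ∈ s then 1 else 0) = 1 := h1
    rw [if_neg hc] at h1'
    exact zero_ne_one h1'
  have h3 := hb h2
  have h4 := (encode_res_mono z).le_apply (x := b + 1)
  omega

/-- A closed set without characteristic functions of finite sets pulls back to a bounded set. -/
theorem bounded_of_closed {L : Set BS} (hL : IsClosed L) (hQ : Disjoint L Q) :
    ∃ b : BS, ∀ z, ii z ∈ L → ∀ k, z k ≤ b k := by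
  classical
  have hK : IsCompact {c : BS | ∀ m, c m ≤ 1} := by
    have : {c : BS | ∀ m, c m ≤ 1} = Set.pi univ fun _ => Set.Iic 1 := by
      ext c
      exact ⟨fun h m _ => h m, fun h m => h m (mem_univ m)⟩
    rw [this]
    exact isCompact_univ_pi fun _ => (Set.finite_Iic 1).isCompact
  have hLK : IsCompact (L ∩ {c : BS | ∀ m, c m ≤ 1}) := hK.inter_left hL
  have h1 : ∀ n, ∃ B, ∀ c ∈ L ∩ {c : BS | ∀ m, c m ≤ 1}, ∃ m, n ≤ m ∧ m ≤ B ∧ c m ≠ 0 := by
    intro n
    have hopen : ∀ m : ℕ, IsOpen {c : BS | n ≤ m ∧ c m ≠ 0} := by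
      intro m
      by_cases hm : n ≤ m
      · simp only [hm, true_and]
        have hcm : Continuous fun c : BS => c m := continuous_apply m
        exact (isOpen_discrete {k : ℕ | k ≠ 0}).preimage hcm
      · simp [hm]
    have hcov : L ∩ {c : BS | ∀ m, c m ≤ 1} ⊆ ⋃ m : ℕ, {c : BS | n ≤ m ∧ c m ≠ 0} := by
      rintro c ⟨hcL, hcK⟩
      by_contra hc
      simp only [mem_iUnion, mem_ofPred_eq, not_exists, not_and, not_not] at hc
      exact (disjoint_left.1 hQ) hcL (mem_Q hcK hc)
    obtain ⟨t, ht⟩ := hLK.elim_finite_subcover _ hopen hcov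
    obtain ⟨B, hB⟩ := t.bddAbove
    refine ⟨B, fun c hc => ?_⟩
    have := ht hc
    simp only [mem_iUnion, mem_ofPred_eq, exists_prop] at this
    obtain ⟨m, hm, h2, h3⟩ := this
    exact ⟨m, h2, hB hm, h3⟩
  choose B hB using h1
  let Bm : ℕ → ℕ := fun n => (Finset.range (n + 1)).sup B
  have hBm : ∀ i n, i ≤ n → B i ≤ Bm n := fun i n hin =>
    Finset.le_sup (f := B) (Finset.mem_range.2 (by omega))
  let c : ℕ → ℕ := fun k => Nat.rec 0 (fun _ r => Bm (r + 1)) k
  have hcs : ∀ k, c (k + 1) = Bm (c k + 1) := fun k => rfl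
  refine ⟨fun k => c (k + 1), fun z hz k => ?_⟩
  have key : ∀ k, Encodable.encode (PiNat.res z k) ≤ c k := by
    intro k
    induction k with
    | zero => exact le_rfl
    | succ k ih =>
      obtain ⟨m, h2, h3, h4⟩ := hB (Encodable.encode (PiNat.res z k) + 1) _ ⟨hz, ii_le_one z⟩
      rw [ii_ne_zero] at h4
      set l := (nd m).length with hl
      have h5 : m = Encodable.encode (PiNat.res z l) := by
        have : PiNat.res z l = nd m := h4
        rw [this, encode_nd]
      have h6 : k < l := by
        by_contra hc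
        push Not at hc
        have := (encode_res_mono z).monotone hc
        omega
      have h7 : Encodable.encode (PiNat.res z (k + 1)) ≤ m := by
        rw [h5]
        exact (encode_res_mono z).monotone h6
      rw [hcs]
      exact h7.trans (h3.trans (hBm _ _ (by omega)))
  exact (le_encode_res z k).trans (key (k + 1))

/-- A coanalytic set is *scattered on bounded sets* if each of its bounded parts is countable. From
an uncountable such set we get a coanalytic set which is not Borel and does not map onto the Baire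
space. -/
theorem no_image_of_sparse {C₀ : Set BS} (hC : AnalyticSet C₀ᶜ) (hunc : ¬ C₀.Countable)
    (hb : ∀ b : BS, {z | z ∈ C₀ ∧ ∀ k, z k ≤ b k}.Countable) :
    AnalyticSet (ii '' C₀ ∪ Q)ᶜ ∧ ¬ MeasurableSet (ii '' C₀ ∪ Q) ∧
      ∀ (D : Type) [TopologicalSpace D] [Countable D] (f : (ii '' C₀ ∪ Q : Set BS) ⊕ D → BS),
        Continuous f → ¬ Function.Surjective f := by
  classical
  have hemb := continuous_ii.measurableEmbedding ii_injective
  have hQd : ∀ z, ii z ∉ Q := ii_notMem_Q
  refine ⟨?_, ?_, ?_⟩
  · have e : (ii '' C₀ ∪ Q)ᶜ = ((range ii)ᶜ ∪ ii '' C₀ᶜ) ∩ Qᶜ := by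
      ext c
      simp only [mem_compl_iff, mem_union, mem_inter_iff, not_or]
      refine and_congr ?_ Iff.rfl
      constructor
      · intro h
        by_cases hr : c ∈ range ii
        · obtain ⟨z, rfl⟩ := hr
          right
          refine ⟨z, fun hz => h ⟨z, hz, rfl⟩, rfl⟩
        · exact Or.inl hr
      · rintro (h | ⟨z, hz, rfl⟩) ⟨w, hw, h2⟩
        · exact h ⟨w, h2⟩
        · exact hz (ii_injective h2 ▸ hw)
    rw [e]
    refine AnalyticSet.inter' (AnalyticSet.union' hemb.measurableSet_range.compl.analyticSet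
      (hC.image_of_continuous continuous_ii)) countable_Q.measurableSet.compl.analyticSet
  · intro hm
    have h1 : C₀ = ii ⁻¹' ((ii '' C₀ ∪ Q) \ Q) := by
      ext z
      simp only [mem_preimage, mem_sdiff, mem_union]
      constructor
      · intro hz
        exact ⟨Or.inl ⟨z, hz, rfl⟩, hQd z⟩
      · rintro ⟨⟨w, hw, h2⟩ | h2, h3⟩
        · exact ii_injective h2 ▸ hw
        · exact absurd h2 h3
    have h2 : MeasurableSet C₀ := by
      rw [h1]
      exact continuous_ii.measurable (hm.diff countable_Q.measurableSet)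
    obtain ⟨g, hg1, hg2, hg3⟩ := cantor_of_borel h2 hunc
    have h3 : ∀ k, ∃ B, ∀ c, g c k ≤ B := by
      intro k
      have hk : Continuous fun c => g c k := (continuous_apply k).comp hg2
      have h4 : (range fun c => g c k).Finite := (isCompact_range hk).finite_of_discrete
      obtain ⟨B, hB⟩ := h4.bddAbove
      exact ⟨B, fun c => hB (mem_range_self c)⟩
    choose b hb' using h3
    have h4 : (range g).Countable := (hb b).mono (by
      rintro _ ⟨c, rfl⟩
      exact ⟨hg1 (mem_range_self c), fun k => hb' k c⟩)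
    have : Countable (range g) := h4.to_subtype
    exact not_countable_cantor (Set.rangeFactorization_injective.2 hg3).countable
  · generalize hX : ii '' C₀ ∪ Q = X
    have hXm : ∀ c ∈ X, c ∈ ii '' C₀ ∪ Q := fun c hc => by rw [hX]; exact hc
    have hQX : ∀ c ∈ Q, c ∈ X := fun c hc => by rw [← hX]; exact Or.inr hc
    intro D _ _ f hf hs
    let fX : X → BS := fun x => f (Sum.inl x)
    have hfX : Continuous fX := hf.comp continuous_inl
    let Q' : Set BS := fX '' {x : X | x.1 ∈ Q} ∪ range fun d => f (Sum.inr d)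
    have hQ' : Q'.Countable := by
      refine Set.Countable.union (Set.Countable.image ?_ _) (countable_range _)
      exact countable_Q.preimage_of_injOn Subtype.val_injective.injOn
    have hQne : Q'.Nonempty := by
      have h0 : (0 : BS) ∈ Q := mem_Q (n := 0) (fun _ => Nat.zero_le _) fun _ _ => rfl
      exact ⟨_, Or.inl ⟨⟨0, hQX _ h0⟩, h0, rfl⟩⟩
    obtain ⟨q, hq⟩ := hQ'.exists_eq_range hQne
    let P : Set BS := {y | ∀ n, y n ≠ q n n}
    have hPcl : IsClosed P := by
      have : P = ⋂ n, {y : BS | y n ≠ q n n} := by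
        ext y; simp [P]
      rw [this]
      refine isClosed_iInter fun n => ?_
      have hcn : Continuous fun y : BS => y n := continuous_apply n
      exact (isClosed_discrete {k : ℕ | k ≠ q n n}).preimage hcn
    have hPQ : ∀ y ∈ P, y ∉ Q' := by
      intro y hy hyQ
      rw [hq] at hyQ
      obtain ⟨n, rfl⟩ := hyQ
      exact hy n rfl
    have hM : IsClosed (fX ⁻¹' P) := hPcl.preimage hfX
    obtain ⟨L, hL, hLM⟩ := isClosed_induced_iff.1 hM
    have hLQ : Disjoint L Q := by
      rw [disjoint_left]
      intro c hcL hcQ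
      have h1 : (⟨c, hQX _ hcQ⟩ : X) ∈ fX ⁻¹' P := by
        rw [← hLM]; exact hcL
      exact hPQ _ h1 (Or.inl ⟨_, hcQ, rfl⟩)
    obtain ⟨b, hbb⟩ := bounded_of_closed hL hLQ
    have hcount : (fX ⁻¹' P).Countable := by
      have h1 : (ii '' {z | z ∈ C₀ ∧ ∀ k, z k ≤ b k}).Countable := (hb b).image _
      refine (h1.preimage_of_injOn (f := fun x : X => x.1) Subtype.val_injective.injOn).mono ?_
      intro x hx
      have hxL : x.1 ∈ L := by
        have : x ∈ Subtype.val ⁻¹' L := by rw [hLM]; exact hx
        exact this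
      have hxQ : x.1 ∉ Q := fun h => (disjoint_left.1 hLQ) hxL h
      obtain ⟨z, hz, hzx⟩ := (hXm _ x.2).resolve_right hxQ
      exact ⟨z, ⟨hz, hbb z (by rw [hzx]; exact hxL)⟩, hzx⟩
    have hPcount : P.Countable := by
      refine (hcount.image fX).mono ?_
      intro y hy
      obtain ⟨s, hs⟩ := hs y
      rcases s with x | d
      · exact ⟨x, by show f (Sum.inl x) ∈ P; rw [hs]; exact hy, hs⟩
      · exact absurd (Or.inr ⟨d, hs⟩) (hPQ y hy)
    have hinj : Function.Injective fun b : ℕ → Bool =>
        (fun n => q n n + 1 + (b n).toNat : BS) := by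
      intro b c hbc
      funext n
      have h1 : q n n + 1 + (b n).toNat = q n n + 1 + (c n).toNat := congrFun hbc n
      have h2 : (b n).toNat = (c n).toNat := by omega
      revert h2
      cases b n <;> cases c n <;> simp
    have h5 : (range fun b : ℕ → Bool => (fun n => q n n + 1 + (b n).toNat : BS)).Countable := by
      refine hPcount.mono ?_
      rintro _ ⟨b, rfl⟩ n
      show q n n + 1 + (b n).toNat ≠ q n n
      omega
    have : Countable (range fun b : ℕ → Bool => (fun n => q n n + 1 + (b n).toNat : BS)) :=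
      h5.to_subtype
    exact not_countable_cantor (Set.rangeFactorization_injective.2 hinj).countable

end Pool.Agent.P8H88.HJ
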