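import Mathlib
import Pool.Agent.P8H88.HJ.Rk
import Pool.Agent.P8H88.HJ.Tree
import Pool.Agent.P8H88.HJ.Unif
import Pool.Agent.P8H88.HJ.Fam
import Pool.Agent.P8H88.HJ.Cond
import Pool.Agent.P8H88.HJ.Pts
import Pool.Agent.P8H88.HJ.Surj
import Pool.Agent.P8H88.HJ.Conv

/-!
A sparse coanalytic set from a thin one which maps onto the Baire space.
-/

set_option autoImplicit false

open Ordinal Set MeasureTheory

namespace Pool.Agent.P8H88.HJ

theorem dec_ext {z w : BS} (h : ∀ k, dec k z = dec k w) : z = w := by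
  funext m
  have h1 := congrFun (h (Nat.unpair m).1) (Nat.unpair m).2
  simpa [dec] using h1

theorem exists_sparse {A : Set BS} (hA : AnalyticSet Aᶜ) (hunc : ¬ A.Countable)
    (hthin : ¬ ∃ P : Set BS, P ⊆ A ∧ Perfect P ∧ P.Nonempty)
    {D : Type} [TopologicalSpace D] [Countable D] (F : A ⊕ D → BS) (hF : Continuous F)
    (hFs : Function.Surjective F) :
    ∃ C₀ : Set BS, AnalyticSet C₀ᶜ ∧ ¬ C₀.Countable ∧
      ∀ b : BS, {z | z ∈ C₀ ∧ ∀ k, z k ≤ b k}.Countable := by
  classical
  have hnb : ¬ MeasurableSet A := fun h => hthin (perfect_of_borel h hunc)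
  obtain ⟨T, hT⟩ := exists_rep A hA hnb
  have hcnt : ∀ α : Ordinal.{0}, α < ω₁ → {x | x ∈ A ∧ rk (T x) [] ≤ α}.Countable := by
    intro α hα
    have e : {x | x ∈ A ∧ rk (T x) [] ≤ α} = {x | Ge (T x) (α + 1) []}ᶜ := by
      ext x
      simp only [mem_ofPred_eq, mem_compl_iff, not_ge_iff_wf, hT.mem]
    by_contra hc
    have hm : MeasurableSet {x | x ∈ A ∧ rk (T x) [] ≤ α} := by
      rw [e]
      exact (measurable_ge T hT.meas (add_one_lt_omega1 hα) []).compl
    obtain ⟨P, h1, h2⟩ := perfect_of_borel hm hc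
    exact hthin ⟨P, fun x hx => (h1 hx).1, h2⟩
  -- the graph of the map
  let FA : A → BS := fun x => F (Sum.inl x)
  have hFA : Continuous FA := hF.comp continuous_inl
  let Γ : Set (BS × BS) := closure {p : BS × BS | ∃ x : A, p = (x.1, FA x)}
  have hΓcl : IsClosed Γ := isClosed_closure
  have hΓ : ∀ (x : A) (y : BS), (x.1, y) ∈ Γ ↔ y = FA x := by
    intro x y
    constructor
    · intro h
      obtain ⟨p, hp1, hp2⟩ := mem_closure_iff_seq_limit.1 h
      choose a ha using hp1
      have h1 : Filter.Tendsto (fun n => (a n).1) Filter.atTop (nhds x.1) := by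
        have := (continuous_fst.tendsto _).comp hp2
        refine this.congr fun n => ?_
        simp [ha n]
      have h2 : Filter.Tendsto (fun n => FA (a n)) Filter.atTop (nhds y) := by
        have := (continuous_snd.tendsto _).comp hp2
        refine this.congr fun n => ?_
        simp [ha n]
      have h3 : Filter.Tendsto a Filter.atTop (nhds x) := tendsto_subtype_rng.2 h1
      exact tendsto_nhds_unique h2 ((hFA.tendsto x).comp h3)
    · rintro rfl
      exact subset_closure ⟨x, rfl⟩
  -- enumerations of initial segments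
  let W : Set (BS × BS) := {p | p.1 ∈ A ∧ (∀ n, dec n p.2 ∈ A ∧
    ¬ ∃ i, [i] ∈ T (dec n p.2) ∧ Sim (T p.1) [] (T (dec n p.2)) [i]) ∧
    ∀ x', Sim (T x') [] (T p.1) [] → ∃ n, dec n p.2 = x'}
  have hrk : ∀ x ∈ A, ∀ x' ∈ A, (¬ (∃ i, [i] ∈ T x' ∧ Sim (T x) [] (T x') [i]) ↔
      rk (T x') [] ≤ rk (T x) []) := by
    intro x hx x' hx'
    rw [← not_lt, not_iff_not]
    constructor
    · rintro ⟨i, hi, h1⟩
      exact ((sim_iff_rk (hT.wf hx _) (hT.wf hx' _)).1 h1).trans_lt
        ((hT.wf hx' []).rk_child_lt hi)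
    · intro h1
      obtain ⟨i, hi, h2⟩ := (hT.wf hx' []).exists_child h1
      exact ⟨i, hi, (sim_iff_rk (hT.wf hx _) (hT.wf hx' _)).2 h2⟩
  have hWex : ∀ x ∈ A, ∃ e, (x, e) ∈ W := by
    intro x hx
    have h1 := hcnt _ (hT.rk_lt hx [])
    obtain ⟨w, hw⟩ := h1.exists_eq_range ⟨x, hx, le_rfl⟩
    obtain ⟨e, he⟩ := exists_dec w
    refine ⟨e, hx, fun n => ?_, fun x' hx' => ?_⟩
    · have h2 : w n ∈ {x' | x' ∈ A ∧ rk (T x') [] ≤ rk (T x) []} := by
        rw [hw]; exact mem_range_self n
      show dec n e ∈ A ∧ _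
      rw [he n]
      exact ⟨h2.1, (hrk x hx _ h2.1).2 h2.2⟩
    · have h2 : x' ∈ A := (hT.mem x').2 (hx'.wf ((hT.mem x).1 hx))
      have h3 : x' ∈ {x' | x' ∈ A ∧ rk (T x') [] ≤ rk (T x) []} :=
        ⟨h2, (sim_iff_rk (hT.wf h2 _) (hT.wf hx _)).1 hx'⟩
      rw [hw] at h3
      obtain ⟨n, hn⟩ := h3
      exact ⟨n, (he n).trans hn⟩
  have hdc : ∀ n, Continuous fun p : BS × BS => dec n p.2 := fun n =>
    (continuous_dec n).comp continuous_snd
  have hWa : AnalyticSet Wᶜ := by
    have e : Wᶜ = {p | p.1 ∈ Aᶜ} ∪ ((⋃ n, {p | dec n p.2 ∈ Aᶜ}) ∪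
        ((⋃ n, ⋃ i, ({p | [i] ∈ T (dec n p.2)} ∩ {p | Sim (T p.1) [] (T (dec n p.2)) [i]})) ∪
        Prod.fst '' ({q : (BS × BS) × BS | Sim (T q.2) [] (T q.1.1) []} ∩
          ⋂ n, {q | dec n q.1.2 ≠ q.2}))) := by
      ext p
      simp only [W, mem_compl_iff, mem_ofPred_eq, mem_union, mem_iUnion, mem_inter_iff,
        mem_fst_image, mem_iInter]
      constructor
      · intro h
        by_cases h1 : p.1 ∈ A
        · right
          by_cases h2 : ∀ n, dec n p.2 ∈ A
          · right
            by_cases h3 : ∀ n, ¬ ∃ i, [i] ∈ T (dec n p.2) ∧ Sim (T p.1) [] (T (dec n p.2)) [i]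
            · right
              by_contra h4
              refine h ⟨h1, fun n => ⟨h2 n, h3 n⟩, fun x' hx' => ?_⟩
              by_contra h5
              push Not at h5
              exact h4 ⟨x', hx', h5⟩
            · left
              push Not at h3
              exact h3
          · left
            push Not at h2
            exact h2
        · exact Or.inl h1
      · rintro (h | ⟨n, h⟩ | ⟨n, i, h⟩ | ⟨x', h, h'⟩) ⟨h1, h2, h3⟩
        · exact h h1
        · exact h (h2 n).1
        · exact (h2 n).2 ⟨i, h⟩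
        · obtain ⟨n, hn⟩ := h3 x' h
          exact h' n hn
    rw [e]
    refine AnalyticSet.union' (hA.preimage continuous_fst) (AnalyticSet.union'
      (AnalyticSet.iUnion fun n => hA.preimage (hdc n)) (AnalyticSet.union'
      (AnalyticSet.iUnion fun n => AnalyticSet.iUnion fun i => AnalyticSet.inter' ?_ ?_)
      (AnalyticSet.image_of_continuous (AnalyticSet.inter' ?_ (MeasurableSet.analyticSet
        (MeasurableSet.iInter fun n => ?_))) continuous_fst)))
    · exact ((hdc n).measurable (hT.meas [i])).analyticSet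
    · exact analytic_sim (fun p : BS × BS => T p.1) (fun p => T (dec n p.2))
        (fun u => measurable_fst (hT.meas u)) (fun u => (hdc n).measurable (hT.meas u)) _ _
    · exact analytic_sim (fun q : (BS × BS) × BS => T q.2) (fun q => T q.1.1)
        (fun u => measurable_snd (hT.meas u))
        (fun u => (measurable_fst.comp measurable_fst) (hT.meas u)) _ _
    · apply MeasurableSet.compl
      have hc1 : Continuous fun q : (BS × BS) × BS => dec n q.1.2 :=
        (hdc n).comp continuous_fst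
      exact (isClosed_eq hc1 continuous_snd).measurableSet
  obtain ⟨W', hW'W, hW'a, hW'ex, hW'u⟩ := uniformize W hWa
  let C₀ : Set BS := {z | (dec 0 z, dec 1 z) ∈ W' ∧
    ((∀ n, (dec n (dec 1 z), dec n (dec 2 z)) ∈ Γ) ∧
    (∀ n, dec 3 z n = (∑ i ∈ Finset.range (n + 1), dec i (dec 2 z) n) + 1) ∧
    ∀ k n, dec (k + 4) z n = 0)}
  have hinj : ∀ z ∈ C₀, ∀ z' ∈ C₀, dec 0 z = dec 0 z' → z = z' := by
    rintro z ⟨h1, h2, h3, h4⟩ z' ⟨h1', h2', h3', h4'⟩ h0
    have e1 : dec 1 z = dec 1 z' := hW'u (dec 0 z) _ _ h1 (by rw [h0]; exact h1')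
    have e2 : dec 2 z = dec 2 z' := by
      apply dec_ext
      intro n
      have hn : dec n (dec 1 z) ∈ A := ((hW'W h1).2.1 n).1
      have e3 := (hΓ ⟨_, hn⟩ _).1 (h2 n)
      have h5 := h2' n
      rw [← e1] at h5
      have e4 := (hΓ ⟨_, hn⟩ _).1 h5
      rw [e3, e4]
    have e3 : dec 3 z = dec 3 z' := by
      funext n
      rw [h3, h3', e2]
    apply dec_ext
    intro k
    rcases k with _ | _ | _ | _ | k
    · exact h0
    · exact e1
    · exact e2
    · exact e3
    · funext n
      rw [h4, h4']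
  have hex : ∀ x ∈ A, ∃ z ∈ C₀, dec 0 z = x := by
    intro x hx
    obtain ⟨e0, he0⟩ := hWex x hx
    obtain ⟨e, he⟩ := hW'ex x e0 he0
    have heA : ∀ n, dec n e ∈ A := fun n => ((hW'W he).2.1 n).1
    obtain ⟨w, hw⟩ := exists_dec fun n => FA ⟨dec n e, heA n⟩
    let g : BS := fun n => (∑ i ∈ Finset.range (n + 1), dec i w n) + 1
    let sq : ℕ → BS := fun k => match k with
      | 0 => x
      | 1 => e
      | 2 => w
      | 3 => g
      | _ => 0
    obtain ⟨z, hz⟩ := exists_dec sq
    have z0 : dec 0 z = x := hz 0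
    have z1 : dec 1 z = e := hz 1
    have z2 : dec 2 z = w := hz 2
    have z3 : dec 3 z = g := hz 3
    have z4 : ∀ k, dec (k + 4) z = 0 := fun k => hz (k + 4)
    refine ⟨z, ⟨by rw [z0, z1]; exact he, fun n => ?_, fun n => ?_, fun k n => ?_⟩, z0⟩
    · rw [z1, z2]
      exact (hΓ ⟨_, heA n⟩ _).2 (hw n)
    · rw [z3, z2]
    · rw [z4]; rfl
  refine ⟨C₀, ?_, ?_, ?_⟩
  · have e : C₀ᶜ = {z | (dec 0 z, dec 1 z) ∈ W'ᶜ} ∪
        ((⋂ n, {z | (dec n (dec 1 z), dec n (dec 2 z)) ∈ Γ}) ∩
        ((⋂ n, {z | dec 3 z n = (∑ i ∈ Finset.range (n + 1), dec i (dec 2 z) n) + 1}) ∩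
        ⋂ k, ⋂ n, {z | dec (k + 4) z n = 0}))ᶜ := by
      ext z
      simp only [C₀, mem_compl_iff, mem_ofPred_eq, mem_union, mem_inter_iff, mem_iInter]
      rw [not_and_or]
    rw [e]
    refine AnalyticSet.union' ?_ (MeasurableSet.analyticSet (MeasurableSet.compl ?_))
    · exact hW'a.preimage (f := fun z => (dec 0 z, dec 1 z))
        ((continuous_dec 0).prodMk (continuous_dec 1))
    · have hcc : ∀ k n, Continuous fun z : BS => dec k z n := fun k n =>
        continuous_apply (A := fun _ : ℕ => ℕ) (Nat.pair k n)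
      have hcd : ∀ k n, Continuous fun z : BS => dec k (dec n z) := fun k n =>
        (continuous_dec k).comp (continuous_dec n)
      refine (MeasurableSet.iInter fun n => ?_).inter ((MeasurableSet.iInter fun n => ?_).inter
        (MeasurableSet.iInter fun k => MeasurableSet.iInter fun n => ?_))
      · exact (hΓcl.preimage ((hcd n 1).prodMk (hcd n 2))).measurableSet
      · refine (isClosed_eq (hcc 3 n) ?_).measurableSet
        have hs : ∀ i, Continuous fun z : BS => dec i (dec 2 z) n := fun i =>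
          (continuous_apply n).comp (hcd i 2)
        fun_prop
      · exact (isClosed_eq (hcc (k + 4) n) continuous_const).measurableSet
  · intro hc
    apply hunc
    refine (hc.image (dec 0)).mono ?_
    intro x hx
    obtain ⟨z, hz, h0⟩ := hex x hx
    exact ⟨z, hz, h0⟩
  · intro b
    -- a bound which is a value on `A`
    obtain ⟨xb, hxb⟩ : ∃ x : A, ∀ n, b (Nat.pair 3 n) ≤ FA x n := by
      by_contra hc
      push Not at hc
      have h1 : (range fun c : ℕ → Bool =>
          (fun n => b (Nat.pair 3 n) + (c n).toNat : BS)).Countable := by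
        refine (countable_range fun d => F (Sum.inr d)).mono ?_
        rintro _ ⟨c, rfl⟩
        obtain ⟨s, hs⟩ := hFs (fun n => b (Nat.pair 3 n) + (c n).toNat : BS)
        rcases s with x | d
        · obtain ⟨n, hn⟩ := hc x
          have h2 : FA x n = b (Nat.pair 3 n) + (c n).toNat := congrFun hs n
          omega
        · exact ⟨d, hs⟩
      have hi : Function.Injective fun c : ℕ → Bool =>
          (fun n => b (Nat.pair 3 n) + (c n).toNat : BS) := by
        intro c c' hcc
        funext n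
        have h2 : b (Nat.pair 3 n) + (c n).toNat = b (Nat.pair 3 n) + (c' n).toNat :=
          congrFun hcc n
        have h3 : (c n).toNat = (c' n).toNat := by omega
        revert h3
        cases c n <;> cases c' n <;> simp
      have := h1.to_subtype
      exact not_countable_cantor (Set.rangeFactorization_injective.2 hi).countable
    have h1 := hcnt _ (hT.rk_lt xb.2 [])
    refine (h1.preimage_of_injOn (f := fun z : {z // z ∈ C₀} => dec 0 z.1) ?_).image
      Subtype.val |>.mono ?_
    · intro z _ z' _ h2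
      exact Subtype.ext (hinj z.1 z.2 z'.1 z'.2 h2)
    · rintro z ⟨hz, hzb⟩
      refine ⟨⟨z, hz⟩, ?_, rfl⟩
      have hxA : dec 0 z ∈ A := (hW'W hz.1).1
      refine ⟨hxA, ?_⟩
      by_contra hc
      push Not at hc
      have hsim : Sim (T xb.1) [] (T (dec 0 z)) [] :=
        (sim_iff_rk (hT.wf xb.2 _) (hT.wf hxA _)).2 hc.le
      obtain ⟨m, hm⟩ := (hW'W hz.1).2.2 xb.1 hsim
      have hwm : dec m (dec 2 z) = FA xb := by
        apply (hΓ xb _).1
        rw [← hm]
        exact hz.2.1 m
      have h3 := hz.2.2.1 m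
      have h4 : dec m (dec 2 z) m ≤ ∑ i ∈ Finset.range (m + 1), dec i (dec 2 z) m :=
        Finset.single_le_sum (f := fun i => dec i (dec 2 z) m) (fun _ _ => Nat.zero_le _)
          (Finset.mem_range.2 (Nat.lt_succ_self m))
      have h5 : dec 3 z m ≤ b (Nat.pair 3 m) := hzb _
      have h6 := hxb m
      rw [hwm] at h4
      omega

end Pool.Agent.P8H88.HJ
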